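import Mathlib

/-!
# Primes of `N_L` or with Wieferich conditions, in the class `1` of every modulus

Runge's method with explicit bounds: an integer polynomial of degree `2 d`, with constant
coefficient `1`, coefficients at most `q` and not a square, gives no square value at large integers
(`runge_explicit`); the square root is the formal power series `1 + 2 v`, `v = w - v ^ 2`, evaluated at
four times the argument. It is applied to the cyclotomic polynomial of index `n`, `6` dividing `n`, at the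
number `2 ^ (2 ^ i)` with `4 n ^ 2 ≤ 2 ^ i`: the order of `2` modulo each prime factor of that value is
`n * 2 ^ i`, and one of these primes has an odd exponent. The indices `n = 6 L M (2 s + 1)` give distinct
orders, hence distinct primes. A prime outside `N_L` satisfies the Wieferich congruence for every base
`l ≤ L`.
-/

open Polynomial

namespace Pool.Agent.Results.MP_61f5b2_nt.AllModuli

/-- all prime factors of `n` are at most `L` -/
def Smooth (L n : ℕ) : Prop := ∀ q : ℕ, q.Prime → q ∣ n → q ≤ L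

/-- the set `N_L` of the problem -/
def NL (L : ℕ) : Set ℕ :=
  {p | p.Prime ∧ ∃ c : ℕ, 1 ≤ c ∧ ¬ p ∣ c ∧ ∃ a b : ℕ, 1 ≤ a ∧ 1 ≤ b ∧ Smooth L (a * b) ∧
    (p * c = a + b ∨ p * c + b = a)}

/-- odd primes `p` with `2^(p-1) = 1` modulo `p^3`, the exact exponent of `p` being odd -/
def W23odd : Set ℕ :=
  {p | p.Prime ∧ p ≠ 2 ∧ 2 ^ (p - 1) ≡ 1 [MOD p ^ 3] ∧ Odd (padicValNat p (2 ^ (p - 1) - 1))}

theorem cast_eval (n : ℕ) (q : ℕ) (x : ℕ) :
    (((cyclotomic n ℤ).eval (x : ℤ) : ℤ) : ZMod q) = (cyclotomic n (ZMod q)).eval (x : ZMod q) := by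
  rw [← map_cyclotomic_int n (ZMod q), eval_natCast_map]
  rfl

theorem order_eq {p n x : ℕ} (hp : p.Prime) (hpn : ¬ p ∣ n) (hd : (p : ℤ) ∣ (cyclotomic n ℤ).eval (x : ℤ)) :
    orderOf (x : ZMod p) = n := by
  have := Fact.mk hp
  have : NeZero (n : ZMod p) := ⟨by
    intro h
    exact hpn ((ZMod.natCast_eq_zero_iff n p).1 h)⟩
  have h0 := (ZMod.intCast_zmod_eq_zero_iff_dvd _ p).2 hd
  rw [cast_eval] at h0
  have hroot : IsRoot (cyclotomic n (ZMod p)) (x : ZMod p) := h0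
  exact (isRoot_cyclotomic_iff.1 hroot).eq_orderOf.symm

/-- exponents at multiples of the order, prime to `p` -/
theorem val_eq {p o k : ℕ} (hp : p.Prime) (hp2 : p ≠ 2) (ho : 0 < o) (hd : p ∣ 2 ^ o - 1) (hk : ¬ p ∣ k) :
    padicValNat p (2 ^ (o * k) - 1) = padicValNat p (2 ^ o - 1) := by
  have := Fact.mk hp
  have hk0 : k ≠ 0 := by rintro rfl; exact hk (dvd_zero p)
  have hpx : ¬ p ∣ 2 ^ o := by
    intro h
    exact hp2 ((Nat.prime_dvd_prime_iff_eq hp Nat.prime_two).1 (hp.dvd_of_dvd_pow h))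
  have hlte := padicValNat.pow_sub_pow (p := p) (hp.odd_of_ne_two hp2) (x := 2 ^ o) (y := 1)
    (by have : 2 ^ 1 ≤ 2 ^ o := Nat.pow_le_pow_right (by norm_num) ho
        omega) hd hpx hk0
  rw [one_pow, ← pow_mul, padicValNat.eq_zero_of_not_dvd hk, add_zero] at hlte
  exact hlte

theorem mem_union {L p w : ℕ} (hL : L.Prime) (hp : p.Prime) (hp2 : p ≠ 2) (hw : 0 < w) (hpw : ¬ p ∣ w)
    (hodd : Odd (padicValNat p (2 ^ w - 1))) :
    p ∈ NL L ∪ W23odd := by
  have := Fact.mk hp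
  set f := padicValNat p (2 ^ w - 1) with hf
  have hne : 2 ^ w - 1 ≠ 0 := by
    have : 2 ^ 1 ≤ 2 ^ w := Nat.pow_le_pow_right (by norm_num) hw
    omega
  have hd1 : p ∣ 2 ^ w - 1 := by
    rw [← pow_one p]
    exact (padicValNat_dvd_iff_le hne).2 hodd.pos
  by_cases h1 : f = 1
  · left
    refine ⟨hp, (2 ^ w - 1) / p, ?_, ?_, 2 ^ w, 1, Nat.one_le_two_pow, le_refl _, ?_, Or.inr ?_⟩
    · exact Nat.div_pos (Nat.le_of_dvd (Nat.pos_of_ne_zero hne) hd1) hp.pos
    · intro hd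
      have hd2 : p ^ 2 ∣ 2 ^ w - 1 := by
        rw [pow_two]
        calc p * p ∣ p * ((2 ^ w - 1) / p) := Nat.mul_dvd_mul_left p hd
          _ = 2 ^ w - 1 := Nat.mul_div_cancel' hd1
      have := (padicValNat_dvd_iff_le hne).1 hd2
      rw [← hf, h1] at this
      omega
    · intro q hq hqd
      rw [mul_one] at hqd
      have : q = 2 := (Nat.prime_dvd_prime_iff_eq hq Nat.prime_two).1 (hq.dvd_of_dvd_pow hqd)
      rw [this]; exact hL.two_le
    · rw [Nat.mul_div_cancel' hd1]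
      have : 1 ≤ 2 ^ w := Nat.one_le_two_pow
      omega
  · right
    have h3 : 3 ≤ f := by
      obtain ⟨k, hk⟩ := hodd
      omega
    have h20 : (2 : ZMod p) ≠ 0 := by
      intro h
      have : p ∣ 2 := (ZMod.natCast_eq_zero_iff 2 p).1 (by exact_mod_cast h)
      exact hp2 ((Nat.prime_dvd_prime_iff_eq hp Nat.prime_two).1 this)
    set o := orderOf (2 : ZMod p) with ho
    have hpow : ∀ j : ℕ, (2 : ZMod p) ^ j = 1 ↔ p ∣ 2 ^ j - 1 := by
      intro j
      rw [← ZMod.natCast_eq_zero_iff, Nat.cast_sub Nat.one_le_two_pow, sub_eq_zero]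
      push_cast
      rfl
    have how : o ∣ w := orderOf_dvd_of_pow_eq_one ((hpow w).2 hd1)
    have hop : o ∣ p - 1 := orderOf_dvd_of_pow_eq_one (ZMod.pow_card_sub_one_eq_one h20)
    have ho1 : p ∣ 2 ^ o - 1 := (hpow o).1 (pow_orderOf_eq_one _)
    obtain ⟨k, hk⟩ := how
    obtain ⟨k', hk'⟩ := hop
    have ho0 : 0 < o := by
      rcases Nat.eq_zero_or_pos o with h | h
      · rw [h] at hk; omega
      · exact h
    have hpk : ¬ p ∣ k := fun h => hpw (hk ▸ h.mul_left o)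
    have hpk' : ¬ p ∣ k' := by
      intro h
      have h1 : p ∣ p - 1 := hk' ▸ h.mul_left o
      have h2 := Nat.le_of_dvd (by have := hp.two_le; omega) h1
      have := hp.two_le
      omega
    have e1 := val_eq hp hp2 ho0 ho1 hpk
    have e2 := val_eq hp hp2 ho0 ho1 hpk'
    rw [← hk, ← hf] at e1
    rw [← hk', ← e1] at e2
    have hne' : 2 ^ (p - 1) - 1 ≠ 0 := by
      have : 2 ^ 1 ≤ 2 ^ (p - 1) := Nat.pow_le_pow_right (by norm_num) (by have := hp.two_le; omega)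
      omega
    refine ⟨hp, hp2, ?_, ?_⟩
    · have h5 : p ^ 3 ∣ 2 ^ (p - 1) - 1 := (padicValNat_dvd_iff_le hne').2 (by rw [e2]; exact h3)
      exact ((Nat.modEq_iff_dvd' Nat.one_le_two_pow).2 h5).symm
    · rw [e2]; exact hodd

/-- the recursion `v = w - v ^ 2` for formal power series -/
def vs (w : ℕ → ℤ) : ℕ → ℤ
  | 0 => 0
  | k + 1 => w (k + 1) - ∑ i : Fin k, vs w (i + 1) * vs w (k - i)

theorem vs_zero (w : ℕ → ℤ) : vs w 0 = 0 := by rw [vs]

theorem vs_succ (w : ℕ → ℤ) (k : ℕ) :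
    vs w (k + 1) = w (k + 1) - ∑ i : Fin k, vs w (i + 1) * vs w (k - i) := by rw [vs]

theorem vs_spec (w : ℕ → ℤ) (hw : w 0 = 0) (k : ℕ) :
    w k - vs w k - ∑ ij ∈ Finset.HasAntidiagonal.antidiagonal k, vs w ij.1 * vs w ij.2 = 0 := by
  rcases k with _ | k
  · simp [hw, vs_zero]
  · rw [Finset.Nat.sum_antidiagonal_eq_sum_range_succ_mk, Finset.sum_range_succ, Finset.sum_range_succ', vs_succ w k]
    simp only [Nat.sub_self, vs_zero, mul_zero, add_zero, zero_mul]
    rw [← Fin.sum_univ_eq_sum_range (fun i => vs w (i + 1) * vs w (k + 1 - (i + 1))) k]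
    have : ∀ i : Fin k, vs w (i + 1) * vs w (k + 1 - (i + 1)) = vs w (i + 1) * vs w (k - i) := by
      intro i
      congr 2
      omega
    simp only [this]
    ring

theorem vs_bound (w : ℕ → ℤ) (q K : ℕ) (hK2 : 2 ≤ K) (hKq : 2 * q ≤ K)
    (hw : ∀ k, |w (k + 1)| ≤ 4 ^ k * (q : ℤ)) :
    ∀ k : ℕ, 2 * k ≤ K → |vs w (k + 1)| ≤ (K : ℤ) ^ (2 * k + 1) := by
  intro k
  induction k using Nat.strong_induction_on with
  | _ k ih =>
    intro hk
    rw [vs_succ]
    have h1 : |∑ i : Fin k, vs w (i + 1) * vs w (k - i)| ≤ k * (K : ℤ) ^ (2 * k) := by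
      refine (Finset.abs_sum_le_sum_abs _ _).trans ?_
      have : ∀ i : Fin k, |vs w (i + 1) * vs w (k - i)| ≤ (K : ℤ) ^ (2 * k) := by
        intro i
        have hi := i.2
        rw [abs_mul]
        have e1 := ih i hi (by omega)
        have e2 := ih (k - 1 - i) (by omega) (by omega)
        have e3 : k - 1 - (i : ℕ) + 1 = k - i := by omega
        rw [e3] at e2
        calc |vs w (i + 1)| * |vs w (k - i)| ≤ (K : ℤ) ^ (2 * (i : ℕ) + 1) * (K : ℤ) ^ (2 * (k - 1 - i) + 1) :=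
              mul_le_mul e1 e2 (abs_nonneg _) (by positivity)
          _ = (K : ℤ) ^ (2 * k) := by
              rw [← pow_add]
              congr 1
              omega
      calc ∑ i : Fin k, |vs w (i + 1) * vs w (k - i)| ≤ ∑ _i : Fin k, (K : ℤ) ^ (2 * k) :=
            Finset.sum_le_sum fun i _ => this i
        _ = k * (K : ℤ) ^ (2 * k) := by simp
    have h2 := hw k
    have h3 : (4 : ℤ) ^ k ≤ (K : ℤ) ^ (2 * k) := by
      rw [pow_mul]
      apply pow_le_pow_left₀ (by norm_num)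
      have : (2 : ℤ) ≤ K := by exact_mod_cast hK2
      nlinarith
    have hkz : 2 * (k : ℤ) ≤ K := by exact_mod_cast hk
    have hqz : 2 * (q : ℤ) ≤ K := by exact_mod_cast hKq
    have hP : (0 : ℤ) ≤ (K : ℤ) ^ (2 * k) := by positivity
    have h4 : (4 : ℤ) ^ k * q ≤ (K : ℤ) ^ (2 * k) * q := mul_le_mul_of_nonneg_right h3 (by positivity)
    calc |w (k + 1) - ∑ i : Fin k, vs w (i + 1) * vs w (k - i)|
        ≤ |w (k + 1)| + |∑ i : Fin k, vs w (i + 1) * vs w (k - i)| := abs_sub _ _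
      _ ≤ (K : ℤ) ^ (2 * k) * q + k * (K : ℤ) ^ (2 * k) := by linarith
      _ ≤ (K : ℤ) ^ (2 * k + 1) := by
          rw [pow_succ]
          nlinarith

theorem small_eval (D : ℤ[X]) (H : ℝ) (m : ℕ) (hdeg : D.natDegree ≤ m) (hH : ∀ i, |(D.coeff i : ℝ)| ≤ H)
    (t : ℝ) (ht0 : 0 ≤ t) (ht1 : t ≤ 1) :
    |(D.map (Int.castRingHom ℝ)).eval t - (D.coeff 0 : ℝ)| ≤ m * H * t := by
  have hH0 : 0 ≤ H := (abs_nonneg _).trans (hH 0)
  rw [eval_eq_sum_range' (n := m + 1) (by
    have := natDegree_map_le (f := Int.castRingHom ℝ) (p := D)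
    omega), Finset.sum_range_succ']
  simp only [coeff_map, eq_intCast, pow_zero, mul_one, add_sub_cancel_right]
  refine (Finset.abs_sum_le_sum_abs _ _).trans ?_
  calc ∑ i ∈ Finset.range m, |(D.coeff (i + 1) : ℝ) * t ^ (i + 1)| ≤ ∑ _i ∈ Finset.range m, H * t := by
        apply Finset.sum_le_sum
        intro i _
        rw [abs_mul, abs_of_nonneg (pow_nonneg ht0 _)]
        apply mul_le_mul (hH _) _ (pow_nonneg ht0 _) hH0
        calc t ^ (i + 1) ≤ t ^ 1 := pow_le_pow_of_le_one ht0 ht1 (by omega)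
          _ = t := pow_one t
    _ = m * H * t := by rw [Finset.sum_const, Finset.card_range, nsmul_eq_mul]; ring


/-- Runge's method with explicit bounds -/
theorem runge_explicit (G : ℤ[X]) (d q K : ℕ) (hd : 0 < d) (hG0 : G.coeff 0 = 1) (hGd : G.natDegree ≤ 2 * d)
    (hGq : ∀ i, |G.coeff i| ≤ (q : ℤ)) (hGs : ∀ S : ℤ[X], G.comp (C 4 * X) ≠ S ^ 2)
    (hK2 : 2 * d + 3 ≤ K) (hKd : 4 * d ≤ K) (hKq : 2 * q ≤ K) (x : ℕ)
    (hx : 8 * (2 * d + 1) * K ^ (4 * d + 2) < 4 * x) (y : ℕ)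
    (hy : (y : ℝ) ^ 2 = (x : ℝ) ^ (2 * d) * (G.map (Int.castRingHom ℝ)).eval (1 / (x : ℝ))) : False := by
  have hKpos : 0 < K := by omega
  have hxpos : 0 < x := by
    rcases Nat.eq_zero_or_pos x with h | h
    · rw [h] at hx; omega
    · exact h
  set w : ℕ → ℤ := fun k => if k = 0 then 0 else 4 ^ (k - 1) * G.coeff k with hw
  have hw0 : w 0 = 0 := by simp [hw]
  have hws : ∀ k, w (k + 1) = 4 ^ k * G.coeff (k + 1) := by intro k; simp [hw]
  have hwb : ∀ k, |w (k + 1)| ≤ 4 ^ k * (q : ℤ) := by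
    intro k
    rw [hws, abs_mul, abs_of_nonneg (by positivity : (0 : ℤ) ≤ 4 ^ k)]
    exact mul_le_mul_of_nonneg_left (hGq _) (by positivity)
  set v := vs w with hv
  have hvb : ∀ k, k < 2 * d → |v (k + 1)| ≤ (K : ℤ) ^ (2 * k + 1) := fun k hk =>
    vs_bound w q K (by omega) hKq hwb k (by omega)
  have hK1 : (1 : ℤ) ≤ K := by exact_mod_cast hKpos
  set V : ℤ[X] := ∑ k ∈ Finset.range (d + 1), monomial k (v k) with hV
  have hVc : ∀ i, V.coeff i = if i ≤ d then v i else 0 := by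
    intro i
    rw [hV, finsetSum_coeff]
    simp only [coeff_monomial]
    rw [Finset.sum_ite_eq' (Finset.range (d + 1)) i v]
    simp only [Finset.mem_range, Nat.lt_succ_iff]
  set Wp : ℤ[X] := ∑ k ∈ Finset.range (2 * d + 1), monomial k (w k) with hWp
  have hWc : ∀ i, Wp.coeff i = w i := by
    intro i
    rw [hWp, finsetSum_coeff]
    simp only [coeff_monomial]
    rw [Finset.sum_ite_eq' (Finset.range (2 * d + 1)) i w]
    split_ifs with h
    · rfl
    · rw [Finset.mem_range, not_lt] at h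
      have : G.coeff i = 0 := coeff_eq_zero_of_natDegree_lt (by omega)
      simp [hw, this]
  have hGcomp : G.comp (C 4 * X) = 1 + 4 * Wp := by
    ext i
    rw [comp_C_mul_X_coeff, coeff_add, show (4 : ℤ[X]) = C 4 by rfl, coeff_C_mul, hWc]
    rcases i with _ | i
    · simp [hG0, hw0]
    · rw [hws, coeff_one, if_neg (by omega)]
      ring
  set Cr : ℤ[X] := Wp - V - V ^ 2 with hCr
  have hsq : 1 + 4 * Wp = (1 + 2 * V) ^ 2 + 4 * Cr := by rw [hCr]; ring
  have hCr0 : Cr ≠ 0 := by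
    intro h
    apply hGs (1 + 2 * V)
    rw [hGcomp, hsq, h, mul_zero, add_zero]
  have hCrc : ∀ k, Cr.coeff k = w k - V.coeff k -
      ∑ ij ∈ Finset.HasAntidiagonal.antidiagonal k, V.coeff ij.1 * V.coeff ij.2 := by
    intro k
    rw [hCr, pow_two, coeff_sub, coeff_sub, hWc, coeff_mul]
  have hlow : ∀ k, k < d + 1 → Cr.coeff k = 0 := by
    intro k hk
    rw [hCrc, ← vs_spec w hw0 k, hVc, if_pos (by omega)]
    congr 1
    apply Finset.sum_congr rfl
    intro ij hij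
    rw [Finset.HasAntidiagonal.mem_antidiagonal] at hij
    rw [hVc, hVc, if_pos (by omega), if_pos (by omega)]
  have hVdeg : V.natDegree ≤ d := by
    rw [natDegree_le_iff_coeff_eq_zero]
    intro i hi
    rw [hVc, if_neg (by omega)]
  have hWdeg : Wp.natDegree ≤ 2 * d := by
    rw [natDegree_le_iff_coeff_eq_zero]
    intro i hi
    rw [hWc]
    have : G.coeff i = 0 := coeff_eq_zero_of_natDegree_lt (by omega)
    simp [hw, this]
  have hCdeg : Cr.natDegree ≤ 2 * d := by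
    have h1 : (V ^ 2).natDegree ≤ 2 * d := by
      refine natDegree_pow_le.trans ?_
      omega
    have h2 : (Wp - V).natDegree ≤ 2 * d :=
      (natDegree_sub_le _ _).trans (max_le hWdeg (hVdeg.trans (by omega)))
    exact (natDegree_sub_le _ _).trans (max_le h2 h1)
  have hVb : ∀ i, |V.coeff i| ≤ (K : ℤ) ^ (2 * d) := by
    intro i
    rw [hVc]
    split_ifs with h
    · rcases i with _ | i
      · rw [hv, vs_zero, abs_zero]; positivity
      · exact (hvb i (by omega)).trans (pow_le_pow_right₀ hK1 (by omega))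
    · rw [abs_zero]; positivity
  have hwb' : ∀ i, |w i| ≤ (K : ℤ) ^ (4 * d) * K := by
    intro i
    rcases i with _ | i
    · rw [hw0, abs_zero]; positivity
    · by_cases hi : i < 2 * d
      · have h3 : (4 : ℤ) ^ i ≤ (K : ℤ) ^ (4 * d) := by
          calc (4 : ℤ) ^ i ≤ (4 : ℤ) ^ (2 * d) := pow_le_pow_right₀ (by norm_num) hi.le
            _ ≤ ((K : ℤ) ^ 2) ^ (2 * d) := by
                apply pow_le_pow_left₀ (by norm_num)
                have : (2 : ℤ) ≤ K := by exact_mod_cast (by omega : 2 ≤ K)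
                nlinarith
            _ = (K : ℤ) ^ (4 * d) := by rw [← pow_mul]; congr 1; omega
        have hqz : (q : ℤ) ≤ K := by exact_mod_cast (by omega : q ≤ K)
        exact (hwb i).trans (mul_le_mul h3 hqz (by positivity) (by positivity))
      · have : G.coeff (i + 1) = 0 := coeff_eq_zero_of_natDegree_lt (by omega)
        rw [hws, this, mul_zero, abs_zero]
        positivity
  have hCb : ∀ i, |Cr.coeff i| ≤ (K : ℤ) ^ (4 * d + 2) := by
    intro i
    by_cases hi : i ≤ 2 * d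
    · rw [hCrc]
      have h1 : |∑ ij ∈ Finset.HasAntidiagonal.antidiagonal i, V.coeff ij.1 * V.coeff ij.2| ≤
          (2 * d + 1 : ℤ) * (K : ℤ) ^ (4 * d) := by
        refine (Finset.abs_sum_le_sum_abs _ _).trans ?_
        calc ∑ ij ∈ Finset.HasAntidiagonal.antidiagonal i, |V.coeff ij.1 * V.coeff ij.2|
            ≤ ∑ _ij ∈ Finset.HasAntidiagonal.antidiagonal i, (K : ℤ) ^ (4 * d) := by
              apply Finset.sum_le_sum
              intro ij _
              rw [abs_mul]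
              calc |V.coeff ij.1| * |V.coeff ij.2| ≤ (K : ℤ) ^ (2 * d) * (K : ℤ) ^ (2 * d) :=
                    mul_le_mul (hVb _) (hVb _) (abs_nonneg _) (by positivity)
                _ = (K : ℤ) ^ (4 * d) := by rw [← pow_add]; congr 1; omega
          _ = (i + 1 : ℤ) * (K : ℤ) ^ (4 * d) := by
              rw [Finset.sum_const, Finset.Nat.card_antidiagonal, nsmul_eq_mul]
              push_cast
              ring
          _ ≤ (2 * d + 1 : ℤ) * (K : ℤ) ^ (4 * d) := by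
              apply mul_le_mul_of_nonneg_right _ (by positivity)
              exact_mod_cast (by omega : i + 1 ≤ 2 * d + 1)
      have h2 : |V.coeff i| ≤ (K : ℤ) ^ (4 * d) := (hVb i).trans (pow_le_pow_right₀ hK1 (by omega))
      have h3 := hwb' i
      have hP : (0 : ℤ) ≤ (K : ℤ) ^ (4 * d) := by positivity
      have hKz : (2 * d + 3 : ℤ) ≤ K := by exact_mod_cast hK2
      calc |w i - V.coeff i - ∑ ij ∈ Finset.HasAntidiagonal.antidiagonal i, V.coeff ij.1 * V.coeff ij.2|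
          ≤ |w i - V.coeff i| + |∑ ij ∈ Finset.HasAntidiagonal.antidiagonal i, V.coeff ij.1 * V.coeff ij.2| := abs_sub _ _
        _ ≤ |w i| + |V.coeff i| + |∑ ij ∈ Finset.HasAntidiagonal.antidiagonal i, V.coeff ij.1 * V.coeff ij.2| := by
            have := abs_sub (w i) (V.coeff i)
            linarith
        _ ≤ (K : ℤ) ^ (4 * d) * K + (K : ℤ) ^ (4 * d) + (2 * d + 1 : ℤ) * (K : ℤ) ^ (4 * d) := by linarith
        _ = (K : ℤ) ^ (4 * d) * (K + 1 + (2 * d + 1)) := by ring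
        _ ≤ (K : ℤ) ^ (4 * d) * (K * K) := by
            apply mul_le_mul_of_nonneg_left _ hP
            nlinarith
        _ = (K : ℤ) ^ (4 * d + 2) := by rw [pow_add]; ring
    · rw [coeff_eq_zero_of_natDegree_lt (by omega), abs_zero]
      positivity
  -- evaluation
  set H : ℝ := (K : ℝ) ^ (4 * d + 2) with hH
  set Z : ℝ := 4 * (x : ℝ) with hZ
  set t : ℝ := 1 / Z with ht
  have hH1 : 1 ≤ H := one_le_pow₀ (by exact_mod_cast hKpos)
  have hdr : (0 : ℝ) ≤ d := Nat.cast_nonneg _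
  have hZbig : 8 * (2 * d + 1) * H < Z := by
    rw [hH, hZ]
    exact_mod_cast hx
  have hZ1 : 1 ≤ Z := by nlinarith
  have hZ0 : 0 < Z := by linarith
  have ht0 : 0 < t := by positivity
  have htZ : t * Z = 1 := by rw [ht]; field_simp
  have ht1 : t ≤ 1 := by rw [ht, div_le_one hZ0]; exact hZ1
  let e : ℤ[X] →+* ℝ := (evalRingHom t).comp (mapRingHom (Int.castRingHom ℝ))
  have he : ∀ D : ℤ[X], e D = (D.map (Int.castRingHom ℝ)).eval t := fun D => rfl
  have hGe : (G.map (Int.castRingHom ℝ)).eval (1 / (x : ℝ)) = 1 + 4 * e Wp := by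
    have h1 : e (G.comp (C 4 * X)) = (G.map (Int.castRingHom ℝ)).eval (4 * t) := by
      rw [he, map_comp, eval_comp]
      simp
    have h2 : 4 * t = 1 / (x : ℝ) := by
      have : (x : ℝ) ≠ 0 := by exact_mod_cast hxpos.ne'
      rw [ht, hZ]; field_simp
    rw [← h2, ← h1, hGcomp, map_add, map_mul, map_one, map_ofNat]
  have hsq' : 1 + 4 * e Wp = (1 + 2 * e V) ^ 2 + 4 * e Cr := by
    have := congrArg e hsq
    simpa only [map_add, map_mul, map_one, map_ofNat, map_pow] using this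
  have hCbr : ∀ i, |(Cr.coeff i : ℝ)| ≤ H := by
    intro i
    rw [hH]
    exact_mod_cast hCb i
  obtain ⟨D, hD⟩ : X ^ Cr.natTrailingDegree ∣ Cr :=
    X_pow_dvd_iff.2 fun i hi => coeff_eq_zero_of_lt_natTrailingDegree hi
  set k := Cr.natTrailingDegree with hk
  have hkd : d + 1 ≤ k := le_natTrailingDegree hCr0 hlow
  have hDc : ∀ i, D.coeff i = Cr.coeff (i + k) := by
    intro i
    rw [hD, coeff_X_pow_mul]
  have hD0 : D.coeff 0 ≠ 0 := by
    rw [hDc, zero_add, hk]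
    exact trailingCoeff_nonzero_iff_nonzero.2 hCr0
  have hDdeg : D.natDegree ≤ 2 * d := by
    rw [natDegree_le_iff_coeff_eq_zero]
    intro i hi
    rw [hDc]
    exact coeff_eq_zero_of_natDegree_lt (by omega)
  have hDb : ∀ i, |(D.coeff i : ℝ)| ≤ H := fun i => by rw [hDc]; exact hCbr _
  have hDe := small_eval D H (2 * d) hDdeg hDb t ht0.le ht1
  rw [← he] at hDe
  push_cast at hDe
  have hHt : 8 * (2 * d + 1) * H * t < 1 := by
    calc 8 * (2 * d + 1) * H * t < Z * t := mul_lt_mul_of_pos_right hZbig ht0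
      _ = 1 := by rw [mul_comm]; exact htZ
  have hHt0 : 0 < H * t := by positivity
  have hDe1 : |e D - (D.coeff 0 : ℝ)| < 1 := by
    refine lt_of_le_of_lt hDe ?_
    nlinarith
  have hD01 : (1 : ℝ) ≤ |(D.coeff 0 : ℝ)| := by exact_mod_cast Int.one_le_abs hD0
  have heD0 : e D ≠ 0 := by
    intro h
    rw [h, zero_sub, abs_neg] at hDe1
    linarith
  have heDb : |e D| ≤ (2 * d + 1) * H := by
    have h1 : |e D| ≤ |e D - (D.coeff 0 : ℝ)| + |(D.coeff 0 : ℝ)| := by
      have := abs_add_le (e D - (D.coeff 0 : ℝ)) (D.coeff 0 : ℝ)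
      simpa using this
    have h2 := hDb 0
    have h3 : 2 * d * H * t ≤ 2 * d * H * 1 := mul_le_mul_of_nonneg_left ht1 (by positivity)
    linarith
  have heCr : e Cr = t ^ k * e D := by
    rw [hD, map_mul, map_pow]
    congr 2
    rw [he]
    simp
  have hVbr : ∀ i, |(V.coeff i : ℝ)| ≤ H := by
    intro i
    have h1 : |V.coeff i| ≤ (K : ℤ) ^ (4 * d + 2) := (hVb i).trans (pow_le_pow_right₀ hK1 (by omega))
    rw [hH]
    exact_mod_cast h1
  have hVe := small_eval V H d hVdeg hVbr t ht0.le ht1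
  rw [← he, hVc, if_pos (Nat.zero_le _), hv, vs_zero, Int.cast_zero, sub_zero] at hVe
  have hVe1 : |e V| ≤ 1 / 4 := by
    refine hVe.trans ?_
    nlinarith
  -- integrality
  obtain ⟨z, hz⟩ : ∃ z : ℤ, (z : ℝ) = Z ^ d * (1 + 2 * e V) := by
    refine ⟨(4 * (x : ℤ)) ^ d + 2 * ∑ i ∈ Finset.range (d + 1), v i * (4 * (x : ℤ)) ^ (d - i), ?_⟩
    have h1 : e V = ∑ i ∈ Finset.range (d + 1), (v i : ℝ) * t ^ i := by
      rw [hV, map_sum]
      apply Finset.sum_congr rfl
      intro i _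
      rw [he]
      simp
    rw [h1, mul_add, mul_one, Finset.mul_sum, Finset.mul_sum]
    push_cast
    rw [Finset.mul_sum]
    congr 1
    apply Finset.sum_congr rfl
    intro i hi
    have hi' : i ≤ d := by rw [Finset.mem_range] at hi; omega
    have h2 : Z ^ d * t ^ i = Z ^ (d - i) := by
      rw [← Nat.sub_add_cancel hi', pow_add, mul_assoc, ← mul_pow, mul_comm Z t, htZ, one_pow, mul_one,
        Nat.sub_add_cancel hi']
    calc 2 * ((v i : ℝ) * (4 * (x : ℝ)) ^ (d - i)) = 2 * ((v i : ℝ) * (Z ^ d * t ^ i)) := by rw [h2]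
      _ = Z ^ d * (2 * ((v i : ℝ) * t ^ i)) := by ring
  set Y : ℤ := 4 ^ d * (y : ℤ) with hY
  have hY0 : 0 ≤ Y := by positivity
  have hYr : (Y : ℝ) ^ 2 = (z : ℝ) ^ 2 + 4 * Z ^ (2 * d) * e Cr := by
    have h1 : (Y : ℝ) ^ 2 = Z ^ (2 * d) * (1 + 4 * e Wp) := by
      rw [hY]
      push_cast
      rw [mul_pow, hy, hGe, hZ, mul_pow, ← pow_mul, mul_comm d 2]
      ring
    rw [h1, hsq', hz]
    ring
  have hr0 : 4 * Z ^ (2 * d) * e Cr ≠ 0 := by
    rw [heCr]
    have : t ^ k ≠ 0 := pow_ne_zero _ ht0.ne'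
    positivity
  have hne : Y ≠ z := by
    intro h
    apply hr0
    rw [h] at hYr
    linarith
  have hz1 : Z ^ d / 2 ≤ (z : ℝ) := by
    rw [hz]
    have := abs_le.1 hVe1
    have hp : 0 < Z ^ d := by positivity
    have h5 : 1 / 2 ≤ 1 + 2 * e V := by linarith
    calc Z ^ d / 2 = Z ^ d * (1 / 2) := by ring
      _ ≤ Z ^ d * (1 + 2 * e V) := mul_le_mul_of_nonneg_left h5 hp.le
  have hzpos : 0 < (z : ℝ) := lt_of_lt_of_le (by positivity) hz1
  have hYz : (1 : ℝ) ≤ |(Y : ℝ) - z| := by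
    have : 1 ≤ |Y - z| := Int.one_le_abs (sub_ne_zero.2 hne)
    exact_mod_cast this
  have hYr0 : (0 : ℝ) ≤ Y := by exact_mod_cast hY0
  have hlowr : Z ^ d / 2 ≤ |4 * Z ^ (2 * d) * e Cr| := by
    have h1 : 4 * Z ^ (2 * d) * e Cr = ((Y : ℝ) - z) * (Y + z) := by
      have : ((Y : ℝ) - z) * (Y + z) = (Y : ℝ) ^ 2 - (z : ℝ) ^ 2 := by ring
      rw [this, hYr]; ring
    rw [h1, abs_mul, abs_of_pos (by linarith : (0 : ℝ) < Y + z)]
    calc Z ^ d / 2 ≤ 1 * ((Y : ℝ) + z) := by linarith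
      _ ≤ |(Y : ℝ) - z| * ((Y : ℝ) + z) := mul_le_mul_of_nonneg_right hYz (by linarith)
  have hup : |4 * Z ^ (2 * d) * e Cr| * Z ≤ 4 * (2 * d + 1) * H * Z ^ d := by
    rw [heCr, abs_mul (4 * Z ^ (2 * d)) (t ^ k * e D), abs_mul (t ^ k) (e D),
      abs_of_pos (by positivity : (0 : ℝ) < 4 * Z ^ (2 * d)), abs_of_pos (pow_pos ht0 k)]
    have h1 : t ^ k ≤ t ^ (d + 1) := pow_le_pow_of_le_one ht0.le ht1 hkd
    have h2' : ∀ a b : ℝ, b * a = 1 → a ^ (2 * d) * b ^ (d + 1) * a = a ^ d := by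
      intro a b hab
      have : a ^ (2 * d) * b ^ (d + 1) * a = a ^ d * (b * a) ^ (d + 1) := by ring
      rw [this, hab, one_pow, mul_one]
    have h2 : Z ^ (2 * d) * t ^ (d + 1) * Z = Z ^ d := h2' Z t htZ
    calc 4 * Z ^ (2 * d) * (t ^ k * |e D|) * Z ≤ 4 * Z ^ (2 * d) * (t ^ (d + 1) * ((2 * d + 1) * H)) * Z := by
          apply mul_le_mul_of_nonneg_right _ hZ0.le
          apply mul_le_mul_of_nonneg_left _ (by positivity)
          exact mul_le_mul h1 heDb (abs_nonneg _) (by positivity)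
      _ = 4 * (2 * d + 1) * H * (Z ^ (2 * d) * t ^ (d + 1) * Z) := by ring
      _ = 4 * (2 * d + 1) * H * Z ^ d := by rw [h2]
  have hZd : 0 < Z ^ d := by positivity
  have h1 : Z ^ d / 2 * Z ≤ 4 * (2 * d + 1) * H * Z ^ d :=
    (mul_le_mul_of_nonneg_right hlowr hZ0.le).trans hup
  have h2 : Z ^ d * Z ≤ Z ^ d * (8 * (2 * d + 1) * H) := by linarith
  have h3 := le_of_mul_le_mul_left h2 hZd
  linarith

theorem cyclo_coeff_bound (n m : ℕ) (hn : 0 < n) (hm : n.totient = m) (i : ℕ) :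
    |(cyclotomic n ℤ).coeff i| ≤ ((2 ^ m : ℕ) : ℤ) := by
  have h := coeff_bdd_of_roots_le (B := 1) (d := m) (RingHom.id ℂ) (p := cyclotomic n ℂ) (cyclotomic.monic n ℂ)
    (IsAlgClosed.splits _) (by rw [natDegree_cyclotomic, hm]) (by
      intro z hz
      rw [Polynomial.map_id] at hz
      have h1 : IsRoot (cyclotomic n ℂ) z := isRoot_of_mem_roots hz
      have : NeZero (n : ℂ) := ⟨by exact_mod_cast hn.ne'⟩
      have h2 := (isRoot_cyclotomic_iff.1 h1).pow_eq_one
      exact (Complex.norm_eq_one_of_pow_eq_one h2 hn.ne').le) i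
  rw [Polynomial.map_id, max_self, one_pow, one_mul, ← map_cyclotomic_int n ℂ, coeff_map, eq_intCast,
    Complex.norm_intCast] at h
  have h2 : ((m.choose (m / 2) : ℕ) : ℝ) ≤ ((2 ^ m : ℕ) : ℝ) := by exact_mod_cast Nat.choose_le_two_pow m _
  exact_mod_cast h.trans h2

theorem reverse_reverse' (P : ℤ[X]) (h : P.coeff 0 ≠ 0) : P.reverse.reverse = P := by
  have h1 : P.natTrailingDegree = 0 := by
    rw [natTrailingDegree_eq_zero]
    exact Or.inr h
  have h2 : P.reverse.natDegree = P.natDegree := by rw [reverse_natDegree, h1, Nat.sub_zero]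
  rw [reverse, h2, reverse, reflect_reflect]

theorem cyclo_nonsquare {n : ℕ} (h6 : 6 ≤ n) (a : ℕ) (ha : 4 * n ^ 2 ≤ a) (b : ℤ) :
    (cyclotomic n ℤ).eval (((2 ^ a : ℕ)) : ℤ) ≠ b ^ 2 := by
  intro hb
  have hn : 0 < n := by omega
  have hcz : (cyclotomic n ℤ).coeff 0 = 1 := cyclotomic_coeff_zero ℤ (by omega)
  obtain ⟨d, hd⟩ := (Nat.totient_even (by omega : 2 < n))
  have hd' : n.totient = 2 * d := by omega
  have hdeg : (cyclotomic n ℤ).natDegree = 2 * d := by rw [natDegree_cyclotomic, hd']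
  have hd0 : 0 < d := by
    have := Nat.totient_pos.2 hn
    omega
  have hdn : 2 * d ≤ n := by rw [← hd']; exact Nat.totient_le n
  set P := cyclotomic n ℤ with hP
  have hx0 : (0 : ℝ) < ((2 ^ a : ℕ) : ℝ) := by positivity
  refine runge_explicit P.reverse d (2 ^ (2 * d)) (2 ^ (2 * d + 3)) hd0 ?_ ?_ ?_ ?_ ?_ ?_ ?_ (2 ^ a) ?_ b.natAbs ?_
  · rw [coeff_zero_reverse]
    exact cyclotomic.monic n ℤ
  · exact (reverse_natDegree_le P).trans hdeg.le
  · intro i
    rw [coeff_reverse]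
    exact cyclo_coeff_bound n (2 * d) hn hd' _
  · intro S hS
    have h1 : P.reverse.map (Int.castRingHom ℚ) = ((S.map (Int.castRingHom ℚ)).comp (C (1 / 4) * X)) ^ 2 := by
      have h2 := congrArg (fun Q : ℤ[X] => (Q.map (Int.castRingHom ℚ)).comp (C (1 / 4) * X)) hS
      simp only [map_comp, Polynomial.map_pow, pow_comp] at h2
      rw [← h2, comp_assoc]
      have : ((C (4 : ℤ) * X : ℤ[X]).map (Int.castRingHom ℚ)).comp (C (1 / 4) * X) = (X : ℚ[X]) := by
        rw [Polynomial.map_mul, map_C, map_X, mul_comp, C_comp, X_comp, ← mul_assoc, ← C_mul]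
        norm_num
      rw [this, comp_X]
    have h3 : P.reverse.map (Int.castRingHom ℚ) = (P.map (Int.castRingHom ℚ)).reverse := by
      rw [reverse, reverse, reflect_map, natDegree_map_eq_of_injective (Int.cast_injective (α := ℚ))]
    rw [h3] at h1
    have hrr : (P.map (Int.castRingHom ℚ)).reverse.reverse = P.map (Int.castRingHom ℚ) := by
      have h4 : (P.map (Int.castRingHom ℚ)).natTrailingDegree = 0 := by
        rw [natTrailingDegree_eq_zero]
        right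
        rw [coeff_map, hcz]
        simp
      have h5 : (P.map (Int.castRingHom ℚ)).reverse.natDegree = (P.map (Int.castRingHom ℚ)).natDegree := by
        rw [reverse_natDegree, h4, Nat.sub_zero]
      rw [reverse, h5, reverse, reflect_reflect]
    have h6' := congrArg Polynomial.reverse h1
    rw [hrr, pow_two, reverse_mul_of_domain, hP, map_cyclotomic_int] at h6'
    exact (cyclotomic.irreducible_rat hn).not_isSquare ⟨_, h6'⟩
  · have : 2 * d < 2 ^ (2 * d) := Nat.lt_two_pow_self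
    rw [pow_add]
    omega
  · have : 2 * d < 2 ^ (2 * d) := Nat.lt_two_pow_self
    rw [pow_add]
    omega
  · rw [pow_add]
    omega
  · have h1 : 2 * d + 1 ≤ 2 ^ (2 * d) := Nat.lt_two_pow_self
    calc 8 * (2 * d + 1) * (2 ^ (2 * d + 3)) ^ (4 * d + 2)
        ≤ 8 * 2 ^ (2 * d) * (2 ^ (2 * d + 3)) ^ (4 * d + 2) := by gcongr
      _ = 2 ^ (3 + 2 * d + (2 * d + 3) * (4 * d + 2)) := by
          rw [← pow_mul, pow_add, pow_add]; norm_num
      _ < 2 ^ (2 + a) := by
          apply Nat.pow_lt_pow_right (by norm_num)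
          have : (2 * d) * (2 * d) ≤ n * n := Nat.mul_le_mul hdn hdn
          nlinarith
      _ = 4 * 2 ^ a := by rw [pow_add]; norm_num
  · have hne : ((2 ^ a : ℕ) : ℝ) ≠ 0 := hx0.ne'
    have hinv : Invertible ((2 ^ a : ℕ) : ℝ) := invertibleOfNonzero hne
    have h1 := eval₂_reverse_mul_pow (Int.castRingHom ℝ) (((2 ^ a : ℕ)) : ℝ) P
    rw [hdeg, invOf_eq_inv] at h1
    have h2 : eval₂ (Int.castRingHom ℝ) (((2 ^ a : ℕ)) : ℝ) P = ((P.eval (((2 ^ a : ℕ)) : ℤ) : ℤ) : ℝ) := by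
      rw [eval₂_eq_eval_map, eval_natCast_map]
      simp
    rw [h2, hb] at h1
    rw [eval_map, one_div, mul_comm, h1]
    push_cast
    rw [Nat.cast_natAbs]
    push_cast
    rw [sq_abs]

/-- the order of `2` modulo a prime factor of the cyclotomic value -/
theorem order_two {n i₀ j q : ℕ} (h2n : 2 ∣ n) (hn : 0 < n) (hi : n < 2 ^ i₀) (hj : 0 < j) (hij : 2 ^ i₀ ∣ j)
    (hjn : ∀ r : ℕ, r.Prime → r ∣ j → r ∣ n) (hq : q.Prime) (hq2 : q ≠ 2)
    (hqN : (q : ℤ) ∣ (cyclotomic n ℤ).eval ((2 ^ j : ℕ) : ℤ)) :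
    orderOf (2 : ZMod q) = n * j ∧ orderOf (((2 ^ j : ℕ)) : ZMod q) = n ∧ ¬ q ∣ n := by
  have := Fact.mk hq
  have h20 : (2 : ZMod q) ≠ 0 := by
    intro h
    have : q ∣ 2 := (ZMod.natCast_eq_zero_iff 2 q).1 (by exact_mod_cast h)
    exact hq2 ((Nat.prime_dvd_prime_iff_eq hq Nat.prime_two).1 this)
  have hqn : ¬ q ∣ n := by
    intro hqn
    obtain ⟨k, m, hqm, hkm⟩ := Nat.exists_eq_pow_mul_and_not_dvd hn.ne' q hq.ne_one
    have hz : (((cyclotomic n ℤ).eval ((2 ^ j : ℕ) : ℤ) : ℤ) : ZMod q) = 0 :=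
      (ZMod.intCast_zmod_eq_zero_iff_dvd _ q).2 hqN
    rw [cast_eval] at hz
    have : NeZero (m : ZMod q) := ⟨fun h => hqm ((ZMod.natCast_eq_zero_iff m q).1 h)⟩
    have hroot : IsRoot (cyclotomic (q ^ k * m) (ZMod q)) (((2 ^ j : ℕ)) : ZMod q) := by
      rw [← hkm]; exact hz
    have hprim := isRoot_cyclotomic_prime_pow_mul_iff_of_charP.1 hroot
    have hq1 : q - 1 ≠ 0 := by have := hq.two_le; omega
    obtain ⟨u, w, hw2, huw⟩ := Nat.exists_eq_pow_mul_and_not_dvd hq1 2 (by norm_num)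
    have hw0 : 0 < w := by
      rcases Nat.eq_zero_or_pos w with h | h
      · rw [h] at hw2; exact absurd (dvd_zero 2) hw2
      · exact h
    have hqle : q ≤ n := Nat.le_of_dvd hn hqn
    have hu : u ≤ i₀ := by
      by_contra hcon
      push Not at hcon
      have h1 : 2 ^ i₀ ≤ 2 ^ u := Nat.pow_le_pow_right (by norm_num) hcon.le
      have h2 : 2 ^ u ≤ q - 1 := by rw [huw]; exact Nat.le_mul_of_pos_right _ hw0
      omega
    obtain ⟨v, hv⟩ := (pow_dvd_pow 2 hu).trans hij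
    have hxw : (((2 ^ j : ℕ)) : ZMod q) ^ w = 1 := by
      rw [Nat.cast_pow, Nat.cast_ofNat, ← pow_mul, hv, mul_assoc, mul_comm v w, ← mul_assoc, ← huw, pow_mul,
        ZMod.pow_card_sub_one_eq_one h20, one_pow]
    have hmw := hprim.dvd_of_pow_eq_one _ hxw
    have h2m : 2 ∣ m := by
      have : 2 ∣ q ^ k * m := hkm ▸ h2n
      rcases (Nat.Prime.dvd_mul Nat.prime_two).1 this with h | h
      · exact absurd ((Nat.prime_dvd_prime_iff_eq Nat.prime_two hq).1 (Nat.prime_two.dvd_of_dvd_pow h)).symm hq2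
      · exact h
    exact hw2 (h2m.trans hmw)
  have hord := order_eq hq hqn hqN
  refine ⟨?_, hord, hqn⟩
  have hord' := hord
  rw [Nat.cast_pow, Nat.cast_ofNat, orderOf_pow' _ hj.ne'] at hord'
  set o := orderOf (2 : ZMod q) with ho
  set g := Nat.gcd o j with hg
  have hg0 : 0 < g := Nat.gcd_pos_of_pos_right _ hj
  have hon : o = n * g := by
    rw [← hord']
    exact (Nat.div_mul_cancel (Nat.gcd_dvd_left o j)).symm
  obtain ⟨h, hh⟩ := Nat.gcd_dvd_right o j
  rw [← hg] at hh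
  have hcop : Nat.gcd n h = 1 := by
    have e : g * Nat.gcd n h = g * 1 := by
      rw [← Nat.gcd_mul_left, ← hh, mul_comm g n, ← hon, ← hg, mul_one]
    exact Nat.eq_of_mul_eq_mul_left hg0 e
  have h1 : h = 1 := by
    by_contra hne
    obtain ⟨r, hr, hrh⟩ := Nat.exists_prime_and_dvd hne
    have hrn := hjn r hr (hh ▸ hrh.mul_left g)
    have := Nat.dvd_gcd hrn hrh
    rw [hcop] at this
    exact hr.one_lt.ne' (Nat.dvd_one.1 this)
  rw [hon, hh, h1, mul_one]

theorem exists_prime {n i : ℕ} (h6 : 6 ∣ n) (hn : 0 < n) (hni : 4 * n ^ 2 ≤ 2 ^ i) :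
    ∃ p : ℕ, p.Prime ∧ p ≠ 2 ∧ orderOf (2 : ZMod p) = n * 2 ^ i ∧ p < 2 ^ (n * 2 ^ i) ∧
      Odd (padicValNat p (2 ^ (n * 2 ^ i) - 1)) := by
  have hn6 : 6 ≤ n := Nat.le_of_dvd hn h6
  have h2n : 2 ∣ n := (by norm_num : 2 ∣ 6).trans h6
  have hcz : (cyclotomic n ℤ).eval 0 = 1 := by
    rw [← coeff_zero_eq_eval_zero]
    exact cyclotomic_coeff_zero ℤ (by omega)
  have hi : n < 2 ^ i := by nlinarith
  have hnsq := cyclo_nonsquare hn6 (2 ^ i) hni
  set s := 2 ^ i with hs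
  have hs0 : 0 < s := by positivity
  have hs2 : 2 ^ i ∣ s := dvd_rfl
  have hsn : ∀ r : ℕ, r.Prime → r ∣ s → r ∣ n := by
    intro r hr hrs
    have : r = 2 := (Nat.prime_dvd_prime_iff_eq hr Nat.prime_two).1 (hr.dvd_of_dvd_pow hrs)
    rw [this]
    exact h2n
  set x := 2 ^ s with hx
  have hxs : s < x := Nat.lt_two_pow_self
  have hNpos : 0 < (cyclotomic n ℤ).eval (x : ℤ) := by
    apply cyclotomic_pos' n
    have : 1 < x := by omega
    exact_mod_cast this
  obtain ⟨N, hN⟩ : ∃ N : ℕ, (N : ℤ) = (cyclotomic n ℤ).eval (x : ℤ) := ⟨_, Int.toNat_of_nonneg hNpos.le⟩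
  have hN0 : N ≠ 0 := by
    rintro rfl
    rw [← hN] at hNpos
    simp at hNpos
  -- a prime of odd exponent
  obtain ⟨a, b, hab, hsq⟩ := Nat.sq_mul_squarefree N
  have ha1 : a ≠ 1 := by
    rintro rfl
    rw [mul_one] at hab
    apply hnsq (b : ℤ)
    rw [← hN, ← hab]
    push_cast
    ring
  obtain ⟨p, hp, hpa⟩ := Nat.exists_prime_and_dvd ha1
  have hb0 : b ≠ 0 := by rintro rfl; simp at hab; omega
  have ha0 : a ≠ 0 := by rintro rfl; simp at hab; omega
  have hpN : p ∣ N := hab ▸ hpa.mul_left _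
  have := Fact.mk hp
  have hodd : Odd (padicValNat p N) := by
    rw [← hab, padicValNat.mul (pow_ne_zero 2 hb0) ha0, padicValNat.pow]
    have h1 : padicValNat p a = 1 := by
      apply le_antisymm
      · by_contra hcon
        push Not at hcon
        have h2 : p ^ 2 ∣ a := (padicValNat_dvd_iff_le ha0).2 hcon
        rw [pow_two] at h2
        exact hp.one_lt.ne' (Nat.isUnit_iff.1 (hsq p h2))
      · exact (padicValNat_dvd_iff_le ha0).1 (by simpa using hpa)
    rw [h1]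
    exact ⟨padicValNat p b, by ring⟩
  have hp2 : p ≠ 2 := by
    rintro rfl
    have hz : (((cyclotomic n ℤ).eval (x : ℤ) : ℤ) : ZMod 2) = 0 := by
      rw [ZMod.intCast_zmod_eq_zero_iff_dvd, ← hN]
      exact_mod_cast hpN
    rw [cast_eval] at hz
    have hx0 : (x : ZMod 2) = ((0 : ℕ) : ZMod 2) := by
      rw [Nat.cast_zero, ZMod.natCast_eq_zero_iff, hx]
      exact dvd_pow_self 2 hs0.ne'
    rw [hx0, ← cast_eval] at hz
    simp only [Nat.cast_zero] at hz
    rw [hcz] at hz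
    simp at hz
  obtain ⟨hord2, hord, hpn⟩ := order_two h2n hn hi hs0 hs2 hsn hp hp2 (by rw [← hx, ← hN]; exact_mod_cast hpN)
  rw [← hx] at hord
  -- the other factors
  have hprod : ((2 ^ (s * n) - 1 : ℕ) : ℤ) = N * ∏ e ∈ n.properDivisors, (cyclotomic e ℤ).eval (x : ℤ) := by
    have h := congrArg (Polynomial.eval (x : ℤ)) (prod_cyclotomic_eq_X_pow_sub_one hn ℤ)
    rw [eval_prod, ← Nat.cons_self_properDivisors hn.ne', Finset.prod_cons] at h
    rw [Nat.cast_sub Nat.one_le_two_pow, hN, h]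
    simp [hx, pow_mul]
  have hMpos : ∀ e ∈ n.properDivisors, 0 < (cyclotomic e ℤ).eval (x : ℤ) := by
    intro e he
    apply cyclotomic_pos' e
    have : 1 < x := by omega
    exact_mod_cast this
  obtain ⟨M, hM⟩ : ∃ M : ℕ, (M : ℤ) = ∏ e ∈ n.properDivisors, (cyclotomic e ℤ).eval (x : ℤ) :=
    ⟨_, Int.toNat_of_nonneg (Finset.prod_nonneg fun e he => (hMpos e he).le)⟩
  have hM' : 2 ^ (s * n) - 1 = N * M := by
    rw [← hM] at hprod
    exact_mod_cast hprod
  have hpM : ¬ p ∣ M := by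
    intro h
    have h' : (p : ℤ) ∣ ∏ e ∈ n.properDivisors, (cyclotomic e ℤ).eval (x : ℤ) := by rw [← hM]; exact_mod_cast h
    obtain ⟨e, he, hpe⟩ := (Nat.prime_iff_prime_int.1 hp).exists_mem_finset_dvd h'
    have hen := Nat.mem_properDivisors.1 he
    have := order_eq hp (fun h => hpn (h.trans hen.1)) hpe
    rw [hord] at this
    omega
  have hM0 : M ≠ 0 := by
    rintro rfl
    exact hpM (dvd_zero p)
  have hval : padicValNat p (2 ^ (s * n) - 1) = padicValNat p N := by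
    rw [hM', padicValNat.mul hN0 hM0, padicValNat.eq_zero_of_not_dvd hpM, add_zero]
  have hle : p ≤ 2 ^ (s * n) - 1 := by
    rw [hM']
    exact (Nat.le_of_dvd (Nat.pos_of_ne_zero hN0) hpN).trans (Nat.le_mul_of_pos_right _ (Nat.pos_of_ne_zero hM0))
  have hpos : 0 < 2 ^ (s * n) := by positivity
  refine ⟨p, hp, hp2, hord2, ?_, ?_⟩
  · rw [mul_comm n s]; omega
  · rw [mul_comm n s, hval]; exact hodd

/-- the conclusions for one prime -/
theorem of_order {L M n j p : ℕ} (hL : L.Prime) (hMn : M ∣ n) (hn : 0 < n) (hj : 0 < j) (hp : p.Prime) (hp2 : p ≠ 2)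
    (ho : orderOf (2 : ZMod p) = n * j) (hodd : Odd (padicValNat p (2 ^ (n * j) - 1))) :
    p ≡ 1 [MOD M] ∧ (p ∈ NL L ∨ p ∈ W23odd) := by
  have := Fact.mk hp
  have h20 : (2 : ZMod p) ≠ 0 := by
    intro h
    have : p ∣ 2 := (ZMod.natCast_eq_zero_iff 2 p).1 (by exact_mod_cast h)
    exact hp2 ((Nat.prime_dvd_prime_iff_eq hp Nat.prime_two).1 this)
  have hdv : n * j ∣ p - 1 := by
    rw [← ho]
    exact orderOf_dvd_of_pow_eq_one (ZMod.pow_card_sub_one_eq_one h20)
  have hlt : n * j < p := by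
    have h1 := Nat.le_of_dvd (by have := hp.two_le; omega) hdv
    have := hp.two_le
    omega
  have hnj : 0 < n * j := Nat.mul_pos hn hj
  refine ⟨?_, mem_union hL hp hp2 hnj (fun h => ?_) hodd⟩
  · exact ((Nat.modEq_iff_dvd' hp.one_le).2 ((hMn.mul_right j).trans hdv)).symm
  · exact absurd (Nat.le_of_dvd hnj h) (by omega)

/-- exceptional primes: Wieferich for every base up to `L` -/
theorem wieferich_of_not_mem {L p l : ℕ} (hp : p.Prime) (hl : l.Prime) (hlL : l ≤ L) (hlp : l ≠ p)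
    (hN : p ∉ NL L) : l ^ (p - 1) ≡ 1 [MOD p ^ 2] := by
  have := Fact.mk hp
  have hl0 : (l : ZMod p) ≠ 0 := by
    intro h
    exact hlp (((Nat.prime_dvd_prime_iff_eq hp hl).1 ((ZMod.natCast_eq_zero_iff l p).1 h)).symm)
  have hpos : 1 ≤ l ^ (p - 1) := Nat.one_le_pow _ _ hl.pos
  have hd : p ∣ l ^ (p - 1) - 1 := by
    rw [← ZMod.natCast_eq_zero_iff, Nat.cast_sub hpos, Nat.cast_pow, ZMod.pow_card_sub_one_eq_one hl0]
    simp
  obtain ⟨c, hc⟩ := hd
  by_contra hcon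
  apply hN
  have hpc : ¬ p ∣ c := by
    rintro ⟨e, he⟩
    apply hcon
    refine ((Nat.modEq_iff_dvd' hpos).2 ?_).symm
    rw [hc, he]
    exact ⟨e, by ring⟩
  have hc0 : 1 ≤ c := by
    rcases Nat.eq_zero_or_pos c with h | h
    · rw [h] at hpc; exact absurd (dvd_zero p) hpc
    · exact h
  refine ⟨hp, c, hc0, hpc, l ^ (p - 1), 1, hpos, le_refl _, ?_, Or.inr (by omega)⟩
  intro q hq hqd
  rw [mul_one] at hqd
  rw [(Nat.prime_dvd_prime_iff_eq hq hl).1 (hq.dvd_of_dvd_pow hqd)]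
  exact hlL

theorem odd_part {s s' i i' : ℕ} (h : (2 * s + 1) * 2 ^ i = (2 * s' + 1) * 2 ^ i') : s = s' := by
  have h1 : 2 * s + 1 ∣ 2 * s' + 1 := by
    have hc : Nat.Coprime (2 * s + 1) (2 ^ i') := Nat.Coprime.pow_right _ (by simp)
    exact hc.dvd_of_dvd_mul_right (h ▸ Dvd.intro _ rfl)
  have h2 : 2 * s' + 1 ∣ 2 * s + 1 := by
    have hc : Nat.Coprime (2 * s' + 1) (2 ^ i) := Nat.Coprime.pow_right _ (by simp)
    exact hc.dvd_of_dvd_mul_right (h ▸ Dvd.intro _ rfl)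
  have := Nat.dvd_antisymm h1 h2
  omega

/-- every modulus -/
theorem result (L : ℕ) (hL : L.Prime) (M : ℕ) (hM : 0 < M) :
    ∃ x₀ : ℕ, ∀ x : ℕ, x₀ ≤ x →
      1 / (48 * (L : ℝ) * M) * (Real.log x) ^ (1 / 3 : ℝ) ≤
        ({p | p ≤ x ∧ p.Prime ∧ p ≡ 1 [MOD M] ∧
          (p ∈ NL L ∨ (p ∈ W23odd ∧ ∀ l : ℕ, l.Prime → l ≤ L → l ^ (p - 1) ≡ 1 [MOD p ^ 2]))}.ncard : ℝ) := by
  have hL0 := hL.pos
  have hLM : 0 < L * M := Nat.mul_pos hL0 hM
  let n : ℕ → ℕ := fun s => 6 * (L * M) * (2 * s + 1)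
  have hn0 : ∀ s, 0 < n s := fun s => by positivity
  have h6 : ∀ s, 6 ∣ n s := fun s => ⟨L * M * (2 * s + 1), by simp only [n]; ring⟩
  have hMn : ∀ s, M ∣ n s := fun s => ⟨6 * L * (2 * s + 1), by simp only [n]; ring⟩
  have hLn : ∀ s, L ∣ n s := fun s => ⟨6 * M * (2 * s + 1), by simp only [n]; ring⟩
  let i : ℕ → ℕ := fun s => Nat.clog 2 (4 * n s ^ 2)
  have hi1 : ∀ s, 4 * n s ^ 2 ≤ 2 ^ i s := fun s => Nat.le_pow_clog (by norm_num) _
  have hi2 : ∀ s, 2 ^ i s ≤ 8 * n s ^ 2 := by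
    intro s
    have h1 : 1 < 4 * n s ^ 2 := by
      have := hn0 s
      have : 0 < n s ^ 2 := by positivity
      omega
    have h2 := Nat.pow_pred_clog_lt_self (b := 2) (by norm_num) h1
    have h3 : 0 < i s := Nat.clog_pos (by norm_num) h1
    have h4 : 2 ^ i s = 2 * 2 ^ (i s - 1) := by
      rw [← pow_succ', Nat.sub_add_cancel h3]
    have h5 : 2 ^ (i s - 1) < 4 * n s ^ 2 := h2
    omega
  choose f hfp hf2 hfo hflt hfodd using fun s => exists_prime (h6 s) (hn0 s) (hi1 s)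
  have hinj : Function.Injective f := by
    intro s s' h
    have h1 : n s * 2 ^ i s = n s' * 2 ^ i s' := by rw [← hfo s, ← hfo s', h]
    apply odd_part (i := i s) (i' := i s')
    apply Nat.eq_of_mul_eq_mul_left (by positivity : 0 < 6 * (L * M))
    simp only [n] at h1
    rw [← mul_assoc (6 * (L * M)), ← mul_assoc (6 * (L * M))]
    exact h1
  have hgood : ∀ s, (f s).Prime ∧ f s ≡ 1 [MOD M] ∧
      (f s ∈ NL L ∨ (f s ∈ W23odd ∧ ∀ l : ℕ, l.Prime → l ≤ L → l ^ (f s - 1) ≡ 1 [MOD f s ^ 2])) := by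
    intro s
    have := Fact.mk (hfp s)
    have h20 : (2 : ZMod (f s)) ≠ 0 := by
      intro h
      have : f s ∣ 2 := (ZMod.natCast_eq_zero_iff 2 (f s)).1 (by exact_mod_cast h)
      exact hf2 s ((Nat.prime_dvd_prime_iff_eq (hfp s) Nat.prime_two).1 this)
    have hdv : n s * 2 ^ i s ∣ f s - 1 := by
      rw [← hfo s]
      exact orderOf_dvd_of_pow_eq_one (ZMod.pow_card_sub_one_eq_one h20)
    have hLp : L < f s := by
      have h1 := Nat.le_of_dvd (by have := (hfp s).two_le; omega) (((hLn s).mul_right (2 ^ i s)).trans hdv)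
      have := (hfp s).two_le
      omega
    obtain ⟨hmod, hmem⟩ := of_order hL (hMn s) (hn0 s) (by positivity : 0 < 2 ^ i s) (hfp s) (hf2 s) (hfo s) (hfodd s)
    refine ⟨hfp s, hmod, ?_⟩
    by_cases hN : f s ∈ NL L
    · exact Or.inl hN
    · refine Or.inr ⟨hmem.resolve_left hN, ?_⟩
      intro l hl hlL
      exact wieferich_of_not_mem (hfp s) hl hlL (by omega) hN
  have htend : Filter.Tendsto (fun x : ℕ => (Real.log x) ^ (1 / 3 : ℝ)) Filter.atTop Filter.atTop :=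
    (tendsto_rpow_atTop (by norm_num)).comp (Real.tendsto_log_atTop.comp tendsto_natCast_atTop_atTop)
  obtain ⟨x₀, hx₀⟩ := Filter.eventually_atTop.1 (htend.eventually_ge_atTop (24 * ((L * M : ℕ) : ℝ)))
  refine ⟨max x₀ 3, ?_⟩
  intro x hx
  have hx3 : 3 ≤ x := (le_max_right _ _).trans hx
  have ht := hx₀ x ((le_max_left _ _).trans hx)
  have hxpos : (0 : ℝ) < x := by exact_mod_cast (by omega : 0 < x)
  have hlx : 0 < Real.log x := Real.log_pos (by exact_mod_cast (by omega : 1 < x))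
  set T := (Real.log x) ^ (1 / 3 : ℝ) with hT
  have hT3 : T ^ 3 = Real.log x := by
    rw [hT, ← Real.rpow_natCast, ← Real.rpow_mul hlx.le]
    norm_num
  set c : ℝ := ((L * M : ℕ) : ℝ) with hc
  have hc1 : 1 ≤ c := by rw [hc]; exact_mod_cast hLM
  have hc0 : 0 < c := by linarith
  set S := ⌊T / (24 * c)⌋₊ with hS
  have hT0 : 0 < T := by positivity
  have hSle : (S : ℝ) ≤ T / (24 * c) := Nat.floor_le (by positivity)
  have hSlt : T / (24 * c) < S + 1 := Nat.lt_floor_add_one _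
  have hT1 : 1 ≤ T / (24 * c) := by rw [le_div_iff₀ (by positivity), one_mul]; exact ht
  have hS1 : (1 : ℝ) ≤ S := by
    have : 1 ≤ S := Nat.one_le_floor_iff _ |>.2 hT1
    exact_mod_cast this
  have hle : ∀ s ∈ Finset.range S, f s ≤ x := by
    intro s hs
    rw [Finset.mem_range] at hs
    have h1 : n s * 2 ^ i s ≤ 8 * (12 * (L * M) * S) ^ 3 := by
      have h2 : n s ≤ 12 * (L * M) * S := by
        simp only [n]
        have : 2 * s + 1 ≤ 2 * S := by omega
        calc 6 * (L * M) * (2 * s + 1) ≤ 6 * (L * M) * (2 * S) := Nat.mul_le_mul_left _ this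
          _ = 12 * (L * M) * S := by ring
      calc n s * 2 ^ i s ≤ n s * (8 * n s ^ 2) := Nat.mul_le_mul_left _ (hi2 s)
        _ = 8 * n s ^ 3 := by ring
        _ ≤ 8 * (12 * (L * M) * S) ^ 3 := Nat.mul_le_mul_left _ (Nat.pow_le_pow_left h2 3)
    have h3 : ((8 * (12 * (L * M) * S) ^ 3 : ℕ) : ℝ) ≤ Real.log x := by
      rw [← hT3]
      have h4 : (S : ℝ) * (24 * c) ≤ T := by rwa [le_div_iff₀ (by positivity)] at hSle
      calc ((8 * (12 * (L * M) * S) ^ 3 : ℕ) : ℝ) = ((S : ℝ) * (24 * c)) ^ 3 := by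
            rw [hc]; push_cast; ring
        _ ≤ T ^ 3 := pow_le_pow_left₀ (by positivity) h4 3
    have h5 : (f s : ℝ) ≤ x := by
      have h6 : (f s : ℝ) ≤ (2 : ℝ) ^ (n s * 2 ^ i s) := by exact_mod_cast (hflt s).le
      refine h6.trans ?_
      have e1 : (2 : ℝ) ^ (n s * 2 ^ i s) = Real.exp ((n s * 2 ^ i s : ℕ) * Real.log 2) := by
        rw [Real.exp_nat_mul, Real.exp_log (by norm_num)]
      rw [e1]
      calc Real.exp ((n s * 2 ^ i s : ℕ) * Real.log 2) ≤ Real.exp (Real.log x) := by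
            apply Real.exp_le_exp.2
            have hl2 : Real.log 2 ≤ 1 := by
              have := Real.log_two_lt_d9
              linarith
            have h7 : ((n s * 2 ^ i s : ℕ) : ℝ) ≤ Real.log x := le_trans (by exact_mod_cast h1) h3
            have h0 : (0 : ℝ) ≤ ((n s * 2 ^ i s : ℕ) : ℝ) := Nat.cast_nonneg _
            nlinarith
        _ = x := Real.exp_log hxpos
    exact_mod_cast h5
  have hcard : S ≤ {p | p ≤ x ∧ p.Prime ∧ p ≡ 1 [MOD M] ∧
      (p ∈ NL L ∨ (p ∈ W23odd ∧ ∀ l : ℕ, l.Prime → l ≤ L → l ^ (p - 1) ≡ 1 [MOD p ^ 2]))}.ncard := by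
    have h1 : ((Finset.range S).image f).card = S := by
      rw [Finset.card_image_of_injective _ hinj, Finset.card_range]
    rw [← h1, ← Set.ncard_coe_finset]
    apply Set.ncard_le_ncard
    · intro p hp
      rw [Finset.mem_coe, Finset.mem_image] at hp
      obtain ⟨s, hs, rfl⟩ := hp
      exact ⟨hle s hs, hgood s⟩
    · exact (Set.finite_Iic x).subset fun p hp => hp.1
  have hcardr : (S : ℝ) ≤ ({p | p ≤ x ∧ p.Prime ∧ p ≡ 1 [MOD M] ∧
      (p ∈ NL L ∨ (p ∈ W23odd ∧ ∀ l : ℕ, l.Prime → l ≤ L → l ^ (p - 1) ≡ 1 [MOD p ^ 2]))}.ncard : ℝ) := by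
    exact_mod_cast hcard
  refine le_trans ?_ hcardr
  have h1 : 1 / (48 * (L : ℝ) * M) * T = T / (24 * c) / 2 := by
    have hLr : (L : ℝ) ≠ 0 := by exact_mod_cast hL0.ne'
    have hMr : (M : ℝ) ≠ 0 := by exact_mod_cast hM.ne'
    rw [hc]
    push_cast
    field_simp
    norm_num
  rw [h1]
  linarith

end Pool.Agent.Results.MP_61f5b2_nt.AllModuli
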