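import Mathlib

/-!
# Puccioni's dichotomy for `N_L`, with counting function and residue classes

For every index `n = b * e`, `b` in `{1, 2, 4}`, `e` odd and squarefree, the value at `2` of the
`n`-th cyclotomic polynomial is `7`, `3`, `5` modulo `8`, and its prime factors (not dividing `n`) are
`1` or `7`, `1` or `3`, `1` or `5` modulo `8`. So some prime `p = 7, 3, 5` modulo `8` with
`orderOf 2 = n` divides `2 ^ n - 1` to an odd power.
-/

open Polynomial

namespace Pool.Agent.Results.MP_61f5b2_nt.ResidueClasses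

/-- all prime factors of `n` are at most `L` -/
def Smooth (L n : ℕ) : Prop := ∀ q : ℕ, q.Prime → q ∣ n → q ≤ L

/-- the set `N_L` of the problem -/
def NL (L : ℕ) : Set ℕ :=
  {p | p.Prime ∧ ∃ c : ℕ, 1 ≤ c ∧ ¬ p ∣ c ∧ ∃ a b : ℕ, 1 ≤ a ∧ 1 ≤ b ∧ Smooth L (a * b) ∧
    (p * c = a + b ∨ p * c + b = a)}

/-- odd primes `p` with `2^(p-1) = 1` modulo `p^3`, the exact exponent of `p` being odd -/
def W23odd : Set ℕ :=
  {p | p.Prime ∧ p ≠ 2 ∧ 2 ^ (p - 1) ≡ 1 [MOD p ^ 3] ∧ Odd (padicValNat p (2 ^ (p - 1) - 1))}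


/-- value at 2 of the n-th cyclotomic polynomial -/
noncomputable def Ph (n : ℕ) : ℤ := (cyclotomic n ℤ).eval 2

theorem prod_Ph {n : ℕ} (hn : 0 < n) : ∏ d ∈ n.divisors, Ph d = 2 ^ n - 1 := by
  have h := congrArg (Polynomial.eval (2:ℤ)) (prod_cyclotomic_eq_X_pow_sub_one hn ℤ)
  rw [eval_prod] at h
  simpa [Ph] using h

theorem Ph_pos (n : ℕ) : 0 < Ph n := by
  rcases Nat.eq_zero_or_pos n with rfl | hn
  · simp [Ph]
  · exact cyclotomic_pos' n (by norm_num)

/-- evaluation of the expansion identity -/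
theorem Ph_mul_prime {r m : ℕ} (hr : r.Prime) (hm : ¬ r ∣ m) :
    (cyclotomic m ℤ).eval (2 ^ r) = Ph (m * r) * Ph m := by
  have h := cyclotomic_expand_eq_cyclotomic_mul hr hm ℤ
  have h2 := congrArg (Polynomial.eval (2:ℤ)) h
  rw [expand_eval, eval_mul] at h2
  exact h2

theorem eval_pow_mod_eight {r m : ℕ} (hr : 3 ≤ r) :
    (((cyclotomic m ℤ).eval (2 ^ r) : ℤ) : ZMod 8) = (((cyclotomic m ℤ).coeff 0 : ℤ) : ZMod 8) := by
  have h1 : ((2 ^ r : ℤ) - 0) ∣ (cyclotomic m ℤ).eval (2 ^ r) - (cyclotomic m ℤ).eval 0 :=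
    Polynomial.sub_dvd_eval_sub _ _ _
  have h8 : (8 : ℤ) ∣ 2 ^ r := by
    have : (2:ℤ) ^ 3 ∣ 2 ^ r := pow_dvd_pow 2 hr
    simpa using this
  have h2 : (8 : ℤ) ∣ (cyclotomic m ℤ).eval (2 ^ r) - (cyclotomic m ℤ).eval 0 := by
    rw [sub_zero] at h1; exact h8.trans h1
  have h3 := (ZMod.intCast_zmod_eq_zero_iff_dvd ((cyclotomic m ℤ).eval (2 ^ r) - (cyclotomic m ℤ).eval 0) 8).2 (by exact_mod_cast h2)
  rw [Int.cast_sub, sub_eq_zero] at h3
  rw [h3, coeff_zero_eq_eval_zero]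

theorem unit_sq (a : ZMod 8) (k : ZMod 8) (h : a * k = 1) : a = k := by
  revert a k; decide

/-- residues mod 8, odd squarefree index -/
theorem Ph_odd_mod {e : ℕ} (he : Odd e) (hs : Squarefree e) (h1 : 1 < e) : (Ph e : ZMod 8) = 7 := by
  induction e using Nat.strong_induction_on with
  | _ e ih =>
    obtain ⟨r, hr, hre⟩ := Nat.exists_prime_and_dvd (by omega : e ≠ 1)
    obtain ⟨m, rfl⟩ := hre
    have hr2 : r ≠ 2 := by
      rintro rfl
      exact (Nat.not_even_iff_odd.2 he) ⟨m, by ring⟩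
    have hr3 : 3 ≤ r := by have := hr.two_le; omega
    have hrm : ¬ r ∣ m := by
      intro hd
      have : r * r ∣ r * m := Nat.mul_dvd_mul_left r hd
      exact hr.one_lt.ne' (Nat.isUnit_iff.1 (hs r this))
    have hmo : Odd m := (Nat.odd_mul.1 he).2
    have hms : Squarefree m := hs.squarefree_of_dvd ⟨r, by ring⟩
    have hm0 : 0 < m := hmo.pos
    have key := congrArg (Int.cast : ℤ → ZMod 8) (Ph_mul_prime hr hrm)
    rw [eval_pow_mod_eight hr3, Int.cast_mul] at key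
    rcases Nat.lt_or_ge 1 m with hm1 | hm1
    · have hm' := ih m (by nlinarith [hr.two_le]) hmo hms hm1
      rw [cyclotomic_coeff_zero ℤ hm1, hm', Int.cast_one] at key
      rw [mul_comm r m]
      have := unit_sq _ _ key.symm
      exact this
    · have hm1' : m = 1 := by omega
      subst hm1'
      have e1 : Ph 1 = 1 := by simp [Ph]
      rw [e1] at key
      have c1 : ((cyclotomic 1 ℤ).coeff 0 : ℤ) = -1 := by simp
      rw [c1] at key
      simp only [Int.cast_neg, Int.cast_one, mul_one, one_mul] at key ⊢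
      rw [← key]; decide

/-- residues mod 8 for even index -/
theorem Ph_even_mod {b : ℕ} {κ : ZMod 8} (hb : b = 2 ∨ b = 4) (hκ : (Ph b : ZMod 8) = κ)
    {e : ℕ} (he : Odd e) (hs : Squarefree e) : (Ph (b * e) : ZMod 8) = κ := by
  induction e using Nat.strong_induction_on with
  | _ e ih =>
    rcases Nat.lt_or_ge 1 e with h1 | h1
    · obtain ⟨r, hr, hre⟩ := Nat.exists_prime_and_dvd (by omega : e ≠ 1)
      obtain ⟨m, rfl⟩ := hre
      have hr2 : r ≠ 2 := by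
        rintro rfl
        exact (Nat.not_even_iff_odd.2 he) ⟨m, by ring⟩
      have hr3 : 3 ≤ r := by have := hr.two_le; omega
      have hrm : ¬ r ∣ m := by
        intro hd
        have : r * r ∣ r * m := Nat.mul_dvd_mul_left r hd
        exact hr.one_lt.ne' (Nat.isUnit_iff.1 (hs r this))
      have hmo : Odd m := (Nat.odd_mul.1 he).2
      have hms : Squarefree m := hs.squarefree_of_dvd ⟨r, by ring⟩
      have hm0 : 0 < m := hmo.pos
      have hrb : ¬ r ∣ b * m := by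
        intro hd
        rcases (Nat.Prime.dvd_mul hr).1 hd with h | h
        · rcases hb with rfl | rfl
          · exact hr2 ((Nat.prime_dvd_prime_iff_eq hr Nat.prime_two).1 h)
          · have : r ∣ 2 ^ 2 := by simpa using h
            exact hr2 ((Nat.prime_dvd_prime_iff_eq hr Nat.prime_two).1 (hr.dvd_of_dvd_pow this))
        · exact hrm h
      have key := congrArg (Int.cast : ℤ → ZMod 8) (Ph_mul_prime hr hrb)
      have hbm : 1 < b * m := by rcases hb with rfl | rfl <;> omega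
      rw [eval_pow_mod_eight hr3, Int.cast_mul, cyclotomic_coeff_zero ℤ hbm,
        ih m (by nlinarith [hr.two_le]) hmo hms, Int.cast_one] at key
      have := unit_sq _ _ key.symm
      rw [show b * (r * m) = b * m * r by ring]
      exact this
    · have : e = 1 := by have := he.pos; omega
      subst this
      simpa using hκ

theorem Ph_two : Ph 2 = 3 := by simp [Ph, cyclotomic_two]
theorem Ph_four : Ph 4 = 5 := by
  have h := prod_Ph (n := 4) (by norm_num)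
  have hd : Nat.divisors 4 = {1, 2, 4} := by decide
  rw [hd, Finset.prod_insert (by decide), Finset.prod_insert (by decide), Finset.prod_singleton, Ph_two] at h
  have e1 : Ph 1 = 1 := by simp [Ph]
  rw [e1] at h
  norm_num at h
  omega

/-- a prime divisor of the value not dividing the index has order equal to the index -/
theorem order_eq {p n : ℕ} (hp : p.Prime) (hpn : ¬ p ∣ n) (hd : (p : ℤ) ∣ Ph n) :
    orderOf (2 : ZMod p) = n := by
  have := Fact.mk hp
  have : NeZero (n : ZMod p) := ⟨by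
    intro h
    exact hpn ((ZMod.natCast_eq_zero_iff n p).1 h)⟩
  have h0 : ((Ph n : ℤ) : ZMod p) = 0 := (ZMod.intCast_zmod_eq_zero_iff_dvd _ p).2 hd
  have hroot : IsRoot (cyclotomic n (ZMod p)) 2 := by
    rw [IsRoot.def, ← map_cyclotomic_int n (ZMod p), eval_map, ← h0, Ph]
    have := Polynomial.hom_eval₂ (cyclotomic n ℤ) (RingHom.id ℤ) (Int.castRingHom (ZMod p)) 2
    simp only [RingHom.comp_id, eval₂_id] at this
    rw [← eval₂_id]
    simpa using this.symm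
  have := (isRoot_cyclotomic_iff.1 hroot)
  exact this.eq_orderOf.symm

theorem order_eq_intrinsic {q m : ℕ} (hq : q.Prime) (hqm : ¬ q ∣ m) (hd : (q : ℤ) ∣ Ph (m * q)) :
    orderOf (2 : ZMod q) = m := by
  have := Fact.mk hq
  apply order_eq hq hqm
  have h0 : ((Ph (m * q) : ℤ) : ZMod q) = 0 := (ZMod.intCast_zmod_eq_zero_iff_dvd _ q).2 hd
  have hcast : ∀ k : ℕ, ((Ph k : ℤ) : ZMod q) = (cyclotomic k (ZMod q)).eval 2 := by
    intro k
    rw [Ph, ← map_cyclotomic_int k (ZMod q), eval_map]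
    simp [eval₂_at_ofNat]
  rw [hcast, cyclotomic_mul_prime_eq_pow_of_not_dvd (ZMod q) hqm, eval_pow] at h0
  have hq1 : q - 1 ≠ 0 := by have := hq.two_le; omega
  have h1 := (pow_eq_zero_iff hq1).1 h0
  rw [← hcast] at h1
  exact (ZMod.intCast_zmod_eq_zero_iff_dvd _ q).1 h1

/-- classes mod 8 -/
theorem class_odd {p n : ℕ} (hp : p.Prime) (hn : Odd n) (ho : orderOf (2 : ZMod p) = n) (h2 : p ≠ 2) :
    p % 8 = 1 ∨ p % 8 = 7 := by
  have := Fact.mk hp
  rw [← ZMod.exists_sq_eq_two_iff h2]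
  obtain ⟨k, hk⟩ := hn
  refine ⟨2 ^ (k + 1), ?_⟩
  have h1 : (2 : ZMod p) ^ n = 1 := by rw [← ho]; exact pow_orderOf_eq_one _
  calc (2 : ZMod p) = 2 ^ n * 2 := by rw [h1, one_mul]
    _ = 2 ^ (k + 1) * 2 ^ (k + 1) := by rw [hk]; ring

theorem neg_one_of_double {p m : ℕ} (hp : p.Prime) (hm : 0 < m) (ho : orderOf (2 : ZMod p) = 2 * m) :
    (2 : ZMod p) ^ m = -1 := by
  have := Fact.mk hp
  have h1 : (2 : ZMod p) ^ (2 * m) = 1 := by rw [← ho]; exact pow_orderOf_eq_one _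
  have h2 : (2 : ZMod p) ^ m * 2 ^ m = 1 := by rw [← pow_add, ← two_mul, h1]
  rcases mul_self_eq_one_iff.1 h2 with h | h
  · exfalso
    have := orderOf_dvd_of_pow_eq_one h
    rw [ho] at this
    have := Nat.le_of_dvd hm this
    omega
  · exact h

theorem class_two {p e : ℕ} (hp : p.Prime) (he : Odd e) (ho : orderOf (2 : ZMod p) = 2 * e) (h2 : p ≠ 2) :
    p % 8 = 1 ∨ p % 8 = 3 := by
  have := Fact.mk hp
  rw [← ZMod.exists_sq_eq_neg_two_iff h2]
  have h1 := neg_one_of_double hp he.pos ho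
  obtain ⟨k, hk⟩ := he
  refine ⟨2 ^ (k + 1), ?_⟩
  calc (-2 : ZMod p) = 2 ^ e * 2 := by rw [h1]; ring
    _ = 2 ^ (k + 1) * 2 ^ (k + 1) := by rw [hk]; ring

theorem class_four {p e : ℕ} (hp : p.Prime) (he : 0 < e) (ho : orderOf (2 : ZMod p) = 4 * e) (h2 : p ≠ 2) :
    p % 8 = 1 ∨ p % 8 = 5 := by
  have := Fact.mk hp
  have h1 := neg_one_of_double hp (m := 2 * e) (by omega) (by rw [ho]; ring)
  have h3 : IsSquare (-1 : ZMod p) := ⟨2 ^ e, by rw [← h1]; ring⟩
  have h4 := ZMod.exists_sq_eq_neg_one_iff.1 h3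
  have hodd := hp.eq_two_or_odd.resolve_left h2
  omega

/-- the index family and its residue -/
theorem exists_prime {n a : ℕ} (ha : a = 3 ∨ a = 5 ∨ a = 7)
    (hmod : (Ph n : ZMod 8) = (a : ZMod 8)) (hn0 : 0 < n)
    (hint : ∀ q : ℕ, q.Prime → q ∣ n → ¬ (q : ℤ) ∣ Ph n)
    (hcl : ∀ p : ℕ, p.Prime → p ≠ 2 → orderOf (2 : ZMod p) = n → p % 8 = 1 ∨ p % 8 = a) :
    ∃ p : ℕ, p.Prime ∧ p ≠ 2 ∧ orderOf (2 : ZMod p) = n ∧ p % 8 = a ∧
      Odd ((2 ^ n - 1 : ℕ).factorization p) := by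
  obtain ⟨N, hN⟩ : ∃ N : ℕ, (N : ℤ) = Ph n := ⟨(Ph n).toNat, Int.toNat_of_nonneg (Ph_pos n).le⟩
  have hN0 : N ≠ 0 := by
    rintro rfl
    have := Ph_pos n
    rw [← hN] at this
    simp at this
  have hNmod : (N : ZMod 8) = (a : ZMod 8) := by rw [← hmod, ← hN]; simp
  have hodd : ¬ (2 : ℕ) ∣ N := by
    intro h2
    have : N % 8 = a % 8 := (ZMod.natCast_eq_natCast_iff' N a 8).1 hNmod
    omega
  have hord : ∀ p : ℕ, p.Prime → p ∣ N → orderOf (2 : ZMod p) = n := by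
    intro p hp hpN
    have hpN' : (p : ℤ) ∣ Ph n := by rw [← hN]; exact_mod_cast hpN
    exact order_eq hp (fun h => hint p hp h hpN') hpN'
  have hex : ∃ p : ℕ, p.Prime ∧ p ∣ N ∧ p % 8 = a ∧ Odd (N.factorization p) := by
    by_contra hcon
    push Not at hcon
    have hone : (N : ZMod 8) = 1 := by
      conv_lhs => rw [← Nat.prod_factorization_pow_eq_self hN0]
      rw [Finsupp.prod, Nat.cast_prod]
      apply Finset.prod_eq_one
      intro p hp
      have hpp := Nat.prime_of_mem_primeFactors hp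
      have hpd := Nat.dvd_of_mem_primeFactors hp
      have hp2 : p ≠ 2 := by rintro rfl; exact hodd hpd
      rw [Nat.cast_pow]
      have hpc : (p : ZMod 8) = ((p % 8 : ℕ) : ZMod 8) := by simp
      rcases hcl p hpp hp2 (hord p hpp hpd) with h | h
      · rw [hpc, h]; simp
      · have he := hcon p hpp hpd h
        rw [Nat.not_odd_iff_even] at he
        obtain ⟨k, hk⟩ := he
        rw [hpc, h, hk, ← two_mul, pow_mul]
        have : ((a : ZMod 8)) ^ 2 = 1 := by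
          rcases ha with rfl | rfl | rfl <;> decide
        rw [this, one_pow]
    rw [hNmod] at hone
    rcases ha with rfl | rfl | rfl <;> revert hone <;> decide
  obtain ⟨p, hp, hpN, hpa, hpo⟩ := hex
  have hp2 : p ≠ 2 := by rintro rfl; exact hodd hpN
  refine ⟨p, hp, hp2, hord p hp hpN, hpa, ?_⟩
  -- 2 ^ n - 1 = N * M
  have hM : ((2 ^ n - 1 : ℕ) : ℤ) = N * ∏ d ∈ n.properDivisors, Ph d := by
    have h1 := prod_Ph hn0
    rw [← Nat.cons_self_properDivisors hn0.ne', Finset.prod_cons] at h1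
    rw [Nat.cast_sub Nat.one_le_two_pow, hN, h1]
    simp
  obtain ⟨M, hMM⟩ : ∃ M : ℕ, (M : ℤ) = ∏ d ∈ n.properDivisors, Ph d :=
    ⟨(∏ d ∈ n.properDivisors, Ph d).toNat, Int.toNat_of_nonneg (Finset.prod_nonneg fun d _ => (Ph_pos d).le)⟩
  have hM' : 2 ^ n - 1 = N * M := by
    rw [← hMM] at hM
    exact_mod_cast hM
  have hpM : ¬ p ∣ M := by
    intro h
    have h' : (p : ℤ) ∣ ∏ d ∈ n.properDivisors, Ph d := by rw [← hMM]; exact_mod_cast h
    obtain ⟨d, hd, hpd⟩ := (Nat.prime_iff_prime_int.1 hp).exists_mem_finset_dvd h'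
    have hdn := (Nat.mem_properDivisors.1 hd)
    have hpn : ¬ p ∣ n := by
      intro hpn
      have hpN' : (p : ℤ) ∣ Ph n := by rw [← hN]; exact_mod_cast hpN
      exact hint p hp hpn hpN'
    have := order_eq hp (fun h => hpn (h.trans hdn.1)) hpd
    rw [hord p hp hpN] at this
    omega
  have hM0 : M ≠ 0 := by
    rintro rfl
    exact hpM (dvd_zero p)
  rw [hM', Nat.factorization_mul hN0 hM0, Finsupp.add_apply, Nat.factorization_eq_zero_of_not_dvd hpM, add_zero]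
  exact hpo
theorem mem_union {L p n : ℕ} (hL : L.Prime) (hp : p.Prime) (hp2 : p ≠ 2) (hn : 0 < n)
    (ho : orderOf (2 : ZMod p) = n) (hodd : Odd ((2 ^ n - 1 : ℕ).factorization p)) :
    p ∈ NL L ∪ W23odd := by
  have := Fact.mk hp
  set f := (2 ^ n - 1 : ℕ).factorization p with hf
  have hne : 2 ^ n - 1 ≠ 0 := by
    have : 2 ^ 1 ≤ 2 ^ n := Nat.pow_le_pow_right (by norm_num) hn
    omega
  by_cases h1 : f = 1
  · left
    refine ⟨hp, (2 ^ n - 1) / p, ?_, ?_, 2 ^ n, 1, Nat.one_le_two_pow, le_refl _, ?_, Or.inr ?_⟩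
    · have hd : p ∣ 2 ^ n - 1 := Nat.dvd_of_factorization_pos (by rw [← hf, h1]; exact one_ne_zero)
      exact Nat.div_pos (Nat.le_of_dvd (Nat.pos_of_ne_zero hne) hd) hp.pos
    · intro hd
      have hd1 : p ∣ 2 ^ n - 1 := Nat.dvd_of_factorization_pos (by rw [← hf, h1]; exact one_ne_zero)
      have hd2 : p ^ 2 ∣ 2 ^ n - 1 := by
        rw [pow_two]
        calc p * p ∣ p * ((2 ^ n - 1) / p) := Nat.mul_dvd_mul_left p hd
          _ = 2 ^ n - 1 := Nat.mul_div_cancel' hd1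
      have := (hp.pow_dvd_iff_le_factorization hne).1 hd2
      rw [← hf, h1] at this
      omega
    · intro q hq hqd
      rw [mul_one] at hqd
      have : q = 2 := (Nat.prime_dvd_prime_iff_eq hq Nat.prime_two).1 (hq.dvd_of_dvd_pow hqd)
      rw [this]; exact hL.two_le
    · have hd : p ∣ 2 ^ n - 1 := Nat.dvd_of_factorization_pos (by rw [← hf, h1]; exact one_ne_zero)
      rw [Nat.mul_div_cancel' hd]
      have : 1 ≤ 2 ^ n := Nat.one_le_two_pow
      omega
  · right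
    have h3 : 3 ≤ f := by
      obtain ⟨k, hk⟩ := hodd
      omega
    have hp3 : p ^ 3 ∣ 2 ^ n - 1 := (hp.pow_dvd_iff_le_factorization hne).2 h3
    have hnd : n ∣ p - 1 := by
      rw [← ho]
      apply orderOf_dvd_of_pow_eq_one
      apply ZMod.pow_card_sub_one_eq_one
      intro h
      have : p ∣ 2 := (ZMod.natCast_eq_zero_iff 2 p).1 (by exact_mod_cast h)
      exact hp2 ((Nat.prime_dvd_prime_iff_eq hp Nat.prime_two).1 this)
    obtain ⟨k, hk⟩ := hnd
    have hk0 : k ≠ 0 := by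
      rintro rfl
      have := hp.two_le
      omega
    have hpk : ¬ p ∣ k := by
      intro h
      have h1 := Nat.le_of_dvd (Nat.pos_of_ne_zero hk0) h
      have h2 : k ≤ n * k := Nat.le_mul_of_pos_left k hn
      have := hp.two_le
      omega
    have hdd : 2 ^ n - 1 ∣ 2 ^ (p - 1) - 1 := by
      rw [hk, pow_mul]
      simpa using Nat.sub_dvd_pow_sub_pow (2 ^ n) 1 k
    refine ⟨hp, hp2, ?_, ?_⟩
    · have h5 : p ^ 3 ∣ 2 ^ (p - 1) - 1 := hp3.trans hdd
      exact ((Nat.modEq_iff_dvd' Nat.one_le_two_pow).2 h5).symm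
    · have hpd : p ∣ 2 ^ n - 1 := (dvd_pow_self p (by norm_num)).trans hp3
      have hpx : ¬ p ∣ 2 ^ n := by
        intro h
        exact hp2 ((Nat.prime_dvd_prime_iff_eq hp Nat.prime_two).1 (hp.dvd_of_dvd_pow h))
      have hlte := padicValNat.pow_sub_pow (p := p) (hp.odd_of_ne_two hp2) (x := 2 ^ n) (y := 1)
        (by have : 2 ^ 1 ≤ 2 ^ n := Nat.pow_le_pow_right (by norm_num) hn
            omega) hpd hpx hk0
      rw [one_pow, ← pow_mul, ← hk] at hlte
      rw [hlte, padicValNat.eq_zero_of_not_dvd hpk, add_zero]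
      rw [hf, Nat.factorization_def _ hp] at hodd
      exact hodd

/-- telescoping bound -/
theorem sum_inv_sq (R : ℕ) : ∑ k ∈ Finset.range R, (1 : ℝ) / (2 * ((k : ℝ) + 1) + 1) ^ 2 ≤ 1 / 4 - 1 / (4 * ((R : ℝ) + 1)) := by
  induction R with
  | zero => norm_num
  | succ R ih =>
    rw [Finset.sum_range_succ]
    have h : (1 : ℝ) / (2 * ((R : ℝ) + 1) + 1) ^ 2 ≤ 1 / (4 * ((R : ℝ) + 1)) - 1 / (4 * ((R : ℝ) + 2)) := by
      have hR : (0 : ℝ) ≤ R := Nat.cast_nonneg R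
      rw [div_sub_div _ _ (by positivity) (by positivity), div_le_div_iff₀ (by positivity) (by positivity)]
      ring_nf
      nlinarith [hR, mul_nonneg hR hR]
    push_cast
    have e : (R : ℝ) + 1 + 1 = R + 2 := by ring
    rw [e]
    linarith

theorem card_ap {M s I : ℕ} (hc : Nat.Coprime s M) (u : ℕ) :
    ((Finset.range I).filter (fun i => s ∣ M * i + u)).card ≤ I / s + 1 := by
  have hinj : Set.InjOn (fun i => i / s) ((Finset.range I).filter (fun i => s ∣ M * i + u) : Set ℕ) := by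
    intro i hi j hj hij
    simp only [Finset.coe_filter, Finset.mem_range, Set.mem_ofPred_eq] at hi hj
    have h1 : (M * i + u) ≡ (M * j + u) [MOD s] := by
      rw [Nat.ModEq, Nat.mod_eq_zero_of_dvd hi.2, Nat.mod_eq_zero_of_dvd hj.2]
    have h2 : M * i ≡ M * j [MOD s] := Nat.ModEq.add_right_cancel' u h1
    have h3 : i ≡ j [MOD s] := Nat.ModEq.cancel_left_of_coprime hc h2
    have h4 : i / s = j / s := hij
    rw [← Nat.div_add_mod i s, ← Nat.div_add_mod j s, h4, h3]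
  rw [← Finset.card_image_of_injOn hinj]
  calc _ ≤ (Finset.range (I / s + 1)).card := by
        apply Finset.card_le_card
        intro k hk
        obtain ⟨i, hi, rfl⟩ := Finset.mem_image.1 hk
        rw [Finset.mem_filter, Finset.mem_range] at hi
        rw [Finset.mem_range]
        exact Nat.lt_succ_of_le (Nat.div_le_div_right hi.1.le)
    _ = I / s + 1 := Finset.card_range _
/-- the odd factor -/
def tt (m i : ℕ) : ℕ := 2 * m * i + (2 * m + 1)

/-- the index -/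
def idx (b m i : ℕ) : ℕ := b * (m * tt m i)

theorem tt_le {m i I : ℕ} (hi : i < I) : tt m i ≤ 2 * m * I + 1 := by
  unfold tt
  have : m * (i + 1) ≤ m * I := Nat.mul_le_mul_left m hi
  nlinarith

theorem tt_odd (m i : ℕ) : Odd (tt m i) := ⟨m * i + m, by unfold tt; ring⟩

theorem tt_coprime (m i : ℕ) : Nat.Coprime m (tt m i) := by
  unfold tt
  have : 2 * m * i + (2 * m + 1) = 1 + m * (2 * i + 2) := by ring
  rw [this]
  simp

theorem card_bad1 {m I : ℕ} :
    (((Finset.range I).filter (fun i => ¬ Squarefree (tt m i))).card : ℝ)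
      ≤ (I : ℝ) / 4 + Nat.sqrt (2 * m * I + 1) := by
  set R := Nat.sqrt (2 * m * I + 1) with hR
  have hsub : (Finset.range I).filter (fun i => ¬ Squarefree (tt m i)) ⊆
      (Finset.range R).biUnion (fun k => (Finset.range I).filter
        (fun i => (2 * (k + 1) + 1) ^ 2 ∣ 2 * m * i + (2 * m + 1))) := by
    intro i hi
    rw [Finset.mem_filter, Finset.mem_range] at hi
    have hns := hi.2
    rw [Nat.squarefree_iff_prime_squarefree] at hns
    push Not at hns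
    obtain ⟨r, hr, hrr⟩ := hns
    have hrodd : Odd r := by
      rcases hr.eq_two_or_odd' with h | h
      · exfalso
        subst h
        have h2 : 2 ∣ tt m i := (dvd_mul_right 2 2).trans hrr
        obtain ⟨k, hk⟩ := tt_odd m i
        omega
      · exact h
    obtain ⟨k, hk⟩ := hrodd
    have hr2 := hr.two_le
    have hle : r * r ≤ tt m i := Nat.le_of_dvd (tt_odd m i).pos hrr
    have hrR : r ≤ R := by
      rw [hR, Nat.le_sqrt]
      exact hle.trans (tt_le hi.1)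
    rw [Finset.mem_biUnion]
    refine ⟨k - 1, Finset.mem_range.2 (by omega), ?_⟩
    rw [Finset.mem_filter, Finset.mem_range]
    refine ⟨hi.1, ?_⟩
    have : 2 * (k - 1 + 1) + 1 = r := by omega
    rw [this, pow_two]
    exact hrr
  have h1 : ((Finset.range I).filter (fun i => ¬ Squarefree (tt m i))).card ≤
      ∑ k ∈ Finset.range R, (I / (2 * (k + 1) + 1) ^ 2 + 1) := by
    refine (Finset.card_le_card hsub).trans (Finset.card_biUnion_le.trans ?_)
    apply Finset.sum_le_sum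
    intro k _
    by_cases hc : Nat.Coprime ((2 * (k + 1) + 1) ^ 2) (2 * m)
    · exact card_ap hc (2 * m + 1)
    · have : (Finset.range I).filter (fun i => (2 * (k + 1) + 1) ^ 2 ∣ 2 * m * i + (2 * m + 1)) = ∅ := by
        rw [Finset.filter_eq_empty_iff]
        intro i _ hdiv
        apply hc
        rw [Nat.coprime_iff_gcd_eq_one]
        have hg1 : Nat.gcd ((2 * (k + 1) + 1) ^ 2) (2 * m) ∣ 2 * m * i + (2 * m + 1) :=
          (Nat.gcd_dvd_left _ _).trans hdiv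
        have hg2 : Nat.gcd ((2 * (k + 1) + 1) ^ 2) (2 * m) ∣ 2 * m * (i + 1) :=
          (Nat.gcd_dvd_right _ _).trans (dvd_mul_right _ _)
        have e : 2 * m * i + (2 * m + 1) = 2 * m * (i + 1) + 1 := by ring
        rw [e] at hg1
        exact Nat.dvd_one.1 ((Nat.dvd_add_right hg2).1 hg1)
      rw [this, Finset.card_empty]
      exact Nat.zero_le _
  have h2 : (((Finset.range I).filter (fun i => ¬ Squarefree (tt m i))).card : ℝ) ≤
      ∑ k ∈ Finset.range R, ((I : ℝ) * (1 / (2 * ((k : ℝ) + 1) + 1) ^ 2) + 1) := by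
    have h3 : (((Finset.range I).filter (fun i => ¬ Squarefree (tt m i))).card : ℝ) ≤
      ((∑ k ∈ Finset.range R, (I / (2 * (k + 1) + 1) ^ 2 + 1) : ℕ) : ℝ) := by exact_mod_cast h1
    refine h3.trans ?_
    push_cast
    apply Finset.sum_le_sum
    intro k _
    have h4 : ((I / (2 * (k + 1) + 1) ^ 2 : ℕ) : ℝ) ≤ (I : ℝ) / ((2 * (k + 1) + 1) ^ 2 : ℕ) := Nat.cast_div_le
    push_cast at h4
    rw [mul_one_div]
    linarith
  refine h2.trans ?_
  rw [Finset.sum_add_distrib, ← Finset.mul_sum]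
  have h5 := sum_inv_sq R
  have h6 : (0 : ℝ) ≤ 1 / (4 * ((R : ℝ) + 1)) := by positivity
  have hI : (0 : ℝ) ≤ I := Nat.cast_nonneg I
  have h7 : (I : ℝ) * ∑ k ∈ Finset.range R, (1 : ℝ) / (2 * ((k : ℝ) + 1) + 1) ^ 2 ≤ I * (1 / 4) := by
    apply mul_le_mul_of_nonneg_left _ hI
    linarith
  simp only [Finset.sum_const, Finset.card_range, nsmul_eq_mul, mul_one]
  linarith

/-- residue attached to the power of two -/
theorem Ph_idx_mod {b m i a : ℕ} (hb : (b = 1 ∧ a = 7) ∨ (b = 2 ∧ a = 3) ∨ (b = 4 ∧ a = 5))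
    (hm : Odd m) (hms : Squarefree m) (ht : Squarefree (tt m i)) :
    (Ph (idx b m i) : ZMod 8) = (a : ZMod 8) := by
  have ho : Odd (m * tt m i) := hm.mul (tt_odd m i)
  have hs : Squarefree (m * tt m i) := (Nat.squarefree_mul (tt_coprime m i)).2 ⟨hms, ht⟩
  have h1 : 1 < m * tt m i := by
    have h0 := hm.pos
    have h2 : 1 < tt m i := by
      have : 2 * m + 1 ≤ tt m i := Nat.le_add_left _ _
      omega
    exact h2.trans_le (Nat.le_mul_of_pos_left _ h0)
  rcases hb with ⟨rfl, rfl⟩ | ⟨rfl, rfl⟩ | ⟨rfl, rfl⟩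
  · rw [idx, one_mul, Ph_odd_mod ho hs h1]; rfl
  · rw [idx]
    exact Ph_even_mod (Or.inl rfl) (by rw [Ph_two]; rfl) ho hs
  · rw [idx]
    exact Ph_even_mod (Or.inr rfl) (by rw [Ph_four]; rfl) ho hs

theorem intrinsic_bound {b m i a q I : ℕ} (hb : (b = 1 ∧ a = 7) ∨ (b = 2 ∧ a = 3) ∨ (b = 4 ∧ a = 5))
    (hm : Odd m) (hms : Squarefree m) (ht : Squarefree (tt m i)) (hq : q.Prime)
    (hqn : q ∣ idx b m i) (hqP : (q : ℤ) ∣ Ph (idx b m i)) (hi : i < I)
    (hI : 16 * 2 ^ (192 * m ^ 2) ≤ I) :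
    idx b m i = orderOf (2 : ZMod q) * q ∧ q < I / 8 := by
  have hmod := Ph_idx_mod hb hm hms ht
  have hq2 : q ≠ 2 := by
    rintro rfl
    obtain ⟨k, hk⟩ := hqP
    rw [hk] at hmod
    have h2 : ((4 : ℤ) : ZMod 8) * (((2 : ℕ) : ℤ) * k : ℤ) = 0 := by
      push_cast
      have : (4 : ZMod 8) * (2 * (k : ZMod 8)) = 8 * k := by ring
      rw [this]
      have h8 : (8 : ZMod 8) = 0 := by decide
      rw [h8, zero_mul]
    rw [hmod] at h2
    rcases hb with ⟨_, rfl⟩ | ⟨_, rfl⟩ | ⟨_, rfl⟩ <;> revert h2 <;> decide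
  have hs : Squarefree (m * tt m i) := (Nat.squarefree_mul (tt_coprime m i)).2 ⟨hms, ht⟩
  have hqb : Nat.Coprime q b := by
    rcases hb with ⟨rfl, _⟩ | ⟨rfl, _⟩ | ⟨rfl, _⟩
    · exact Nat.coprime_one_right q
    · exact (Nat.coprime_primes hq Nat.prime_two).2 hq2
    · have := (Nat.coprime_primes hq Nat.prime_two).2 hq2
      exact Nat.Coprime.pow_right 2 this
  have hqe : q ∣ m * tt m i := hqb.dvd_of_dvd_mul_left hqn
  obtain ⟨m', hm'⟩ := hqn
  have hqm' : ¬ q ∣ m' := by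
    intro h
    have h1 : q * q ∣ b * (m * tt m i) := by
      have : idx b m i = b * (m * tt m i) := rfl
      rw [← this, hm']
      exact Nat.mul_dvd_mul_left q h
    have h2 : Nat.Coprime (q * q) b := Nat.Coprime.mul_left hqb hqb
    have h3 : q * q ∣ m * tt m i := h2.dvd_of_dvd_mul_left h1
    exact hq.one_lt.ne' (Nat.isUnit_iff.1 (hs q h3))
  have hm'' : idx b m i = m' * q := by rw [hm']; ring
  rw [hm''] at hqP
  have ho := order_eq_intrinsic hq hqm' hqP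
  refine ⟨by rw [ho, hm''], ?_⟩
  have hmpos := hm.pos
  have hidx0 : 0 < idx b m i := by
    have := (tt_odd m i).pos
    have hb0 : 0 < b := by rcases hb with ⟨rfl, _⟩ | ⟨rfl, _⟩ | ⟨rfl, _⟩ <;> norm_num
    unfold idx
    positivity
  have hm'0 : 0 < m' := by
    rcases Nat.eq_zero_or_pos m' with h | h
    · subst h
      rw [zero_mul] at hm''
      omega
    · exact h
  have hlt : q < 2 ^ m' := by
    have h1 : ((2 ^ m' : ℕ) : ZMod q) = 1 := by
      push_cast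
      rw [← ho]; exact pow_orderOf_eq_one _
    have h2 : q ∣ 2 ^ m' - 1 := by
      rw [← ZMod.natCast_eq_zero_iff, Nat.cast_sub Nat.one_le_two_pow, h1]
      simp
    have h3 : 2 ^ 1 ≤ 2 ^ m' := Nat.pow_le_pow_right (by norm_num) hm'0
    have := Nat.le_of_dvd (by omega) h2
    omega
  by_contra hcon
  push Not at hcon
  have hIpos : 16 ≤ I := by
    have : 1 ≤ 2 ^ (192 * m ^ 2) := Nat.one_le_two_pow
    omega
  have hJ : I ≤ 16 * (I / 8) := by omega
  have hn : idx b m i ≤ 12 * m ^ 2 * I := by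
    have h1 : tt m i ≤ 3 * m * I := by
      have := tt_le (m := m) hi
      have : 1 ≤ m * I := Nat.mul_pos hmpos (by omega)
      nlinarith
    have h2 : b ≤ 4 := by rcases hb with ⟨rfl, _⟩ | ⟨rfl, _⟩ | ⟨rfl, _⟩ <;> norm_num
    calc idx b m i = b * (m * tt m i) := rfl
      _ ≤ 4 * (m * (3 * m * I)) := Nat.mul_le_mul h2 (Nat.mul_le_mul_left m h1)
      _ = 12 * m ^ 2 * I := by ring
  have hm192 : m' ≤ 192 * m ^ 2 := by
    have h1 : m' * q ≤ 192 * m ^ 2 * q := by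
      calc m' * q = idx b m i := hm''.symm
        _ ≤ 12 * m ^ 2 * I := hn
        _ ≤ 12 * m ^ 2 * (16 * (I / 8)) := Nat.mul_le_mul_left _ hJ
        _ ≤ 12 * m ^ 2 * (16 * q) := Nat.mul_le_mul_left _ (Nat.mul_le_mul_left _ hcon)
        _ = 192 * m ^ 2 * q := by ring
    exact Nat.le_of_mul_le_mul_right h1 hq.pos
  have h5 : 2 ^ m' ≤ 2 ^ (192 * m ^ 2) := Nat.pow_le_pow_right (by norm_num) hm192
  omega
theorem idx_inj {b m i j : ℕ} (hb : 0 < b) (hm : 0 < m) (h : idx b m i = idx b m j) : i = j := by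
  unfold idx tt at h
  have h1 := Nat.eq_of_mul_eq_mul_left hb h
  have h2 := Nat.eq_of_mul_eq_mul_left hm h1
  have h3 : 2 * m * i = 2 * m * j := Nat.add_right_cancel h2
  exact Nat.eq_of_mul_eq_mul_left (by omega : 0 < 2 * m) h3

theorem idx_le {b m i a I : ℕ} (hb : (b = 1 ∧ a = 7) ∨ (b = 2 ∧ a = 3) ∨ (b = 4 ∧ a = 5))
    (hm : 0 < m) (hi : i < I) : idx b m i ≤ 12 * m ^ 2 * I := by
  have h1 : tt m i ≤ 3 * m * I := by
    have := tt_le (m := m) hi
    have : 1 ≤ m * I := Nat.mul_pos hm (by omega)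
    nlinarith
  have h2 : b ≤ 4 := by rcases hb with ⟨rfl, _⟩ | ⟨rfl, _⟩ | ⟨rfl, _⟩ <;> norm_num
  calc idx b m i = b * (m * tt m i) := rfl
    _ ≤ 4 * (m * (3 * m * I)) := Nat.mul_le_mul h2 (Nat.mul_le_mul_left m h1)
    _ = 12 * m ^ 2 * I := by ring

/-- good indices -/
def Good (b m i : ℕ) : Prop :=
  Squarefree (tt m i) ∧ ¬ ∃ q : ℕ, q.Prime ∧ q ∣ idx b m i ∧ (q : ℤ) ∣ Ph (idx b m i)

open Classical in
theorem card_good {b m a I : ℕ} (hb : (b = 1 ∧ a = 7) ∨ (b = 2 ∧ a = 3) ∨ (b = 4 ∧ a = 5))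
    (hm : Odd m) (hms : Squarefree m) (hI : 16 * 2 ^ (192 * m ^ 2) ≤ I) :
    (I : ℝ) / 2 ≤ ((Finset.range I).filter (fun i => Good b m i)).card := by
  have hmpos := hm.pos
  have hb0 : 0 < b := by rcases hb with ⟨rfl, _⟩ | ⟨rfl, _⟩ | ⟨rfl, _⟩ <;> norm_num
  set B1 := (Finset.range I).filter (fun i => ¬ Squarefree (tt m i)) with hB1
  set B2 := (Finset.range I).filter (fun i => Squarefree (tt m i) ∧
    ∃ q : ℕ, q.Prime ∧ q ∣ idx b m i ∧ (q : ℤ) ∣ Ph (idx b m i)) with hB2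
  have hcover : Finset.range I ⊆ (Finset.range I).filter (fun i => Good b m i) ∪ (B1 ∪ B2) := by
    intro i hi
    rw [Finset.mem_union, Finset.mem_union, hB1, hB2, Finset.mem_filter, Finset.mem_filter, Finset.mem_filter]
    by_cases h1 : Squarefree (tt m i)
    · by_cases h2 : ∃ q : ℕ, q.Prime ∧ q ∣ idx b m i ∧ (q : ℤ) ∣ Ph (idx b m i)
      · exact Or.inr (Or.inr ⟨hi, h1, h2⟩)
      · exact Or.inl ⟨hi, h1, h2⟩
    · exact Or.inr (Or.inl ⟨hi, h1⟩)
  have hcard : I ≤ ((Finset.range I).filter (fun i => Good b m i)).card + (B1.card + B2.card) := by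
    have h1 := Finset.card_le_card hcover
    rw [Finset.card_range] at h1
    exact h1.trans ((Finset.card_union_le _ _).trans (Nat.add_le_add_left (Finset.card_union_le _ _) _))
  have hB2c : B2.card ≤ I / 8 := by
    have key : ∀ i ∈ B2, ∃ q : ℕ, idx b m i = orderOf (2 : ZMod q) * q ∧ q < I / 8 := by
      intro i hi
      rw [hB2, Finset.mem_filter, Finset.mem_range] at hi
      obtain ⟨hi1, hsq, q, hq, hqn, hqP⟩ := hi
      exact ⟨q, intrinsic_bound hb hm hms hsq hq hqn hqP hi1 hI⟩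
    choose! g hg using key
    calc B2.card ≤ (Finset.range (I / 8)).card := by
          apply Finset.card_le_card_of_injOn g
          · intro i hi
            simpa using (hg i hi).2
          · intro i hi j hj hij
            have h1 := (hg i hi).1
            have h2 := (hg j hj).1
            rw [hij, ← h2] at h1
            exact idx_inj hb0 hmpos h1
      _ = I / 8 := Finset.card_range _
  have hB1c := card_bad1 (m := m) (I := I)
  rw [← hB1] at hB1c
  -- square root bound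
  have hIbig : 3072 * m ^ 2 ≤ I := by
    have h1 : 192 * m ^ 2 < 2 ^ (192 * m ^ 2) := Nat.lt_two_pow_self
    omega
  have hIm : 3072 * m ≤ I := by
    have : m ≤ m ^ 2 := by nlinarith
    omega
  have hR : (Nat.sqrt (2 * m * I + 1) : ℝ) ≤ (I : ℝ) / 16 := by
    have h1 : Nat.sqrt (2 * m * I + 1) ^ 2 ≤ 2 * m * I + 1 := Nat.sqrt_le' _
    have h2 : ((Nat.sqrt (2 * m * I + 1) : ℝ)) ^ 2 ≤ 2 * m * I + 1 := by exact_mod_cast h1
    have h3 : (3072 : ℝ) * m ≤ I := by exact_mod_cast hIm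
    have h4 : (1 : ℝ) ≤ m := by exact_mod_cast hmpos
    have hI0 : (0 : ℝ) ≤ I := Nat.cast_nonneg I
    by_contra hcon
    push Not at hcon
    have h5 : ((I : ℝ) / 16) ^ 2 < (Nat.sqrt (2 * m * I + 1) : ℝ) ^ 2 := by
      apply pow_lt_pow_left₀ hcon (by positivity) (by norm_num)
    nlinarith
  have hB2r : (B2.card : ℝ) ≤ (I : ℝ) / 8 := by
    have h1 : (B2.card : ℝ) ≤ ((I / 8 : ℕ) : ℝ) := by exact_mod_cast hB2c
    have h2 : ((I / 8 : ℕ) : ℝ) ≤ (I : ℝ) / (8 : ℕ) := Nat.cast_div_le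
    push_cast at h2
    linarith
  have hcardr : (I : ℝ) ≤ ((Finset.range I).filter (fun i => Good b m i)).card + ((B1.card : ℝ) + B2.card) := by
    exact_mod_cast hcard
  have hI0 : (0 : ℝ) ≤ I := Nat.cast_nonneg I
  linarith

theorem prime_of_good {b m a i L : ℕ} (hL : L.Prime)
    (hb : (b = 1 ∧ a = 7) ∨ (b = 2 ∧ a = 3) ∨ (b = 4 ∧ a = 5))
    (hm : Odd m) (hms : Squarefree m) (hg : Good b m i) :
    ∃ p : ℕ, orderOf (2 : ZMod p) = idx b m i ∧ p.Prime ∧ p % 8 = a ∧ p ≡ 1 [MOD m] ∧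
      p ≤ 2 ^ idx b m i ∧ p ∈ NL L ∪ W23odd := by
  have hmpos := hm.pos
  have hb0 : 0 < b := by rcases hb with ⟨rfl, _⟩ | ⟨rfl, _⟩ | ⟨rfl, _⟩ <;> norm_num
  have hidx0 : 0 < idx b m i := by
    have := (tt_odd m i).pos
    unfold idx
    positivity
  have ha : a = 3 ∨ a = 5 ∨ a = 7 := by
    rcases hb with ⟨_, rfl⟩ | ⟨_, rfl⟩ | ⟨_, rfl⟩ <;> simp
  have ho : Odd (m * tt m i) := hm.mul (tt_odd m i)
  obtain ⟨p, hp, hp2, hord, hpa, hodd⟩ := exists_prime ha (Ph_idx_mod hb hm hms hg.1) hidx0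
    (fun q hq hqn hqP => hg.2 ⟨q, hq, hqn, hqP⟩) (by
      intro p hp hp2 hord
      rcases hb with ⟨rfl, rfl⟩ | ⟨rfl, rfl⟩ | ⟨rfl, rfl⟩
      · rw [idx, one_mul] at hord
        exact class_odd hp ho hord hp2
      · exact class_two hp ho hord hp2
      · exact class_four hp ho.pos hord hp2)
  have := Fact.mk hp
  have hnd : idx b m i ∣ p - 1 := by
    rw [← hord]
    apply orderOf_dvd_of_pow_eq_one
    apply ZMod.pow_card_sub_one_eq_one
    intro h
    have : p ∣ 2 := (ZMod.natCast_eq_zero_iff 2 p).1 (by exact_mod_cast h)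
    exact hp2 ((Nat.prime_dvd_prime_iff_eq hp Nat.prime_two).1 this)
  refine ⟨p, hord, hp, hpa, ?_, ?_, mem_union hL hp hp2 hidx0 hord hodd⟩
  · have h1 : m ∣ p - 1 := by
      refine dvd_trans ?_ hnd
      exact ⟨b * tt m i, by unfold idx; ring⟩
    exact ((Nat.modEq_iff_dvd' hp.one_lt.le).2 h1).symm
  · have hd : p ∣ 2 ^ idx b m i - 1 := by
      rw [← ZMod.natCast_eq_zero_iff, Nat.cast_sub Nat.one_le_two_pow]
      push_cast
      rw [← hord, pow_orderOf_eq_one, sub_self]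
    have h3 : 2 ^ 1 ≤ 2 ^ idx b m i := Nat.pow_le_pow_right (by norm_num) hidx0
    have := Nat.le_of_dvd (by omega) hd
    omega

theorem count_union (L : ℕ) (hL : L.Prime) (m : ℕ) (hm : Odd m) (hms : Squarefree m) (a : ℕ)
    (ha : a = 3 ∨ a = 5 ∨ a = 7) :
    ∃ x₀ : ℕ, ∀ x : ℕ, x₀ ≤ x →
      1 / (48 * (m : ℝ) ^ 2) * Real.log x ≤
        ({p | p ≤ x ∧ p.Prime ∧ p % 8 = a ∧ p ≡ 1 [MOD m] ∧ p ∈ NL L ∪ W23odd} : Set ℕ).ncard := by
  classical
  have hmpos := hm.pos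
  obtain ⟨b, hb⟩ : ∃ b : ℕ, (b = 1 ∧ a = 7) ∨ (b = 2 ∧ a = 3) ∨ (b = 4 ∧ a = 5) := by
    rcases ha with rfl | rfl | rfl
    · exact ⟨2, by simp⟩
    · exact ⟨4, by simp⟩
    · exact ⟨1, by simp⟩
  have hb0 : 0 < b := by rcases hb with ⟨rfl, _⟩ | ⟨rfl, _⟩ | ⟨rfl, _⟩ <;> norm_num
  set K : ℕ := 12 * m ^ 2 with hK
  have hKpos : 0 < K := by positivity
  set I₀ : ℕ := 16 * 2 ^ (192 * m ^ 2) with hI₀
  refine ⟨2 ^ (K * (I₀ + 2)), ?_⟩
  intro x hx
  set ℓ := Nat.log 2 x with hℓ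
  have hx0 : x ≠ 0 := by
    have : 0 < 2 ^ (K * (I₀ + 2)) := by positivity
    omega
  have hℓ1 : K * (I₀ + 2) ≤ ℓ := by
    rw [hℓ]
    exact (Nat.le_log_iff_pow_le (by norm_num) hx0).2 hx
  set I := ℓ / K with hI
  have hII : I₀ ≤ I := by
    rw [hI, Nat.le_div_iff_mul_le hKpos]
    nlinarith
  have hpowI : 2 ^ (K * I) ≤ x := by
    calc 2 ^ (K * I) ≤ 2 ^ ℓ := Nat.pow_le_pow_right (by norm_num) (Nat.mul_div_le ℓ K)
      _ ≤ x := Nat.pow_log_le_self 2 hx0
  have hgood := card_good (I := I) hb hm hms hII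
  have key : ∀ i, Good b m i → ∃ p : ℕ, orderOf (2 : ZMod p) = idx b m i ∧ p.Prime ∧ p % 8 = a ∧ p ≡ 1 [MOD m] ∧
      p ≤ 2 ^ idx b m i ∧ p ∈ NL L ∪ W23odd := fun i hi => prime_of_good hL hb hm hms hi
  choose! g hg using key
  have hfin : ({p | p ≤ x ∧ p.Prime ∧ p % 8 = a ∧ p ≡ 1 [MOD m] ∧ p ∈ NL L ∪ W23odd} : Set ℕ).Finite :=
    (Set.finite_Iic x).subset (fun p hp => hp.1)
  have hcard : ((Finset.range I).filter (fun i => Good b m i)).card ≤
      ({p | p ≤ x ∧ p.Prime ∧ p % 8 = a ∧ p ≡ 1 [MOD m] ∧ p ∈ NL L ∪ W23odd} : Set ℕ).ncard := by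
    rw [← Set.ncard_coe_finset]
    apply Set.ncard_le_ncard_of_injOn g _ _ hfin
    · intro i hi
      rw [Finset.mem_coe, Finset.mem_filter, Finset.mem_range] at hi
      obtain ⟨_, h2, h3, h4, h5, h6⟩ := hg i hi.2
      refine ⟨?_, h2, h3, h4, h6⟩
      calc g i ≤ 2 ^ idx b m i := h5
        _ ≤ 2 ^ (K * I) := Nat.pow_le_pow_right (by norm_num) (idx_le hb hmpos hi.1)
        _ ≤ x := hpowI
    · intro i hi j hj hij
      rw [Finset.mem_coe, Finset.mem_filter, Finset.mem_range] at hi hj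
      have h1 := (hg i hi.2).1
      have h2 := (hg j hj.2).1
      rw [hij, h2] at h1
      exact (idx_inj hb0 hmpos h1).symm
  have hcardr : (((Finset.range I).filter (fun i => Good b m i)).card : ℝ) ≤
      (({p | p ≤ x ∧ p.Prime ∧ p % 8 = a ∧ p ≡ 1 [MOD m] ∧ p ∈ NL L ∪ W23odd} : Set ℕ).ncard : ℝ) := by
    exact_mod_cast hcard
  have hlog : Real.log x ≤ (ℓ : ℝ) + 1 := by
    have h1 : x < 2 ^ (ℓ + 1) := Nat.lt_pow_succ_log_self (by norm_num) x
    have h2 : (x : ℝ) ≤ 2 ^ (ℓ + 1) := by exact_mod_cast h1.le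
    have h3 : Real.log x ≤ Real.log (2 ^ (ℓ + 1)) := Real.log_le_log (by exact_mod_cast Nat.pos_of_ne_zero hx0) h2
    rw [Real.log_pow] at h3
    have h4 : Real.log 2 ≤ 1 := by
      have := Real.log_two_lt_d9
      linarith
    have h5 : (0 : ℝ) ≤ ((ℓ + 1 : ℕ) : ℝ) := Nat.cast_nonneg _
    calc Real.log x ≤ ((ℓ + 1 : ℕ) : ℝ) * Real.log 2 := h3
      _ ≤ ((ℓ + 1 : ℕ) : ℝ) * 1 := mul_le_mul_of_nonneg_left h4 h5
      _ = (ℓ : ℝ) + 1 := by push_cast; ring
  have hIr : (ℓ : ℝ) + 1 ≤ K * ((I : ℝ) + 1) := by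
    have h1 : ℓ < K * (I + 1) := by
      rw [hI]; exact Nat.lt_mul_div_succ ℓ hKpos
    have h2 : ℓ + 1 ≤ K * (I + 1) := h1
    exact_mod_cast h2
  have hI1 : (1 : ℝ) ≤ I := by
    have : 1 ≤ I := by
      have : 1 ≤ 2 ^ (192 * m ^ 2) := Nat.one_le_two_pow
      omega
    exact_mod_cast this
  have hKr : (0 : ℝ) < K := by exact_mod_cast hKpos
  have hK48 : 48 * (m : ℝ) ^ 2 = 4 * (K : ℝ) := by rw [hK]; push_cast; ring
  rw [hK48]
  calc 1 / (4 * (K : ℝ)) * Real.log x ≤ 1 / (4 * (K : ℝ)) * (K * ((I : ℝ) + 1)) := by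
        apply mul_le_mul_of_nonneg_left (hlog.trans hIr) (by positivity)
    _ = ((I : ℝ) + 1) / 4 := by field_simp
    _ ≤ (I : ℝ) / 2 := by linarith
    _ ≤ _ := hgood
    _ ≤ _ := hcardr

/-- exceptional primes: Wieferich for every base up to `L` -/
theorem wieferich_of_not_mem {L p l : ℕ} (hp : p.Prime) (hl : l.Prime) (hlL : l ≤ L) (hlp : l ≠ p)
    (hN : p ∉ NL L) : l ^ (p - 1) ≡ 1 [MOD p ^ 2] := by
  have := Fact.mk hp
  have hl0 : (l : ZMod p) ≠ 0 := by
    intro h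
    exact hlp (((Nat.prime_dvd_prime_iff_eq hp hl).1 ((ZMod.natCast_eq_zero_iff l p).1 h)).symm)
  have hpos : 1 ≤ l ^ (p - 1) := Nat.one_le_pow _ _ hl.pos
  have hd : p ∣ l ^ (p - 1) - 1 := by
    rw [← ZMod.natCast_eq_zero_iff, Nat.cast_sub hpos, Nat.cast_pow, ZMod.pow_card_sub_one_eq_one hl0]
    simp
  obtain ⟨c, hc⟩ := hd
  by_contra hcon
  apply hN
  have hpc : ¬ p ∣ c := by
    rintro ⟨e, he⟩
    apply hcon
    refine ((Nat.modEq_iff_dvd' hpos).2 ?_).symm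
    rw [hc, he]
    exact ⟨e, by ring⟩
  have hc0 : 1 ≤ c := by
    rcases Nat.eq_zero_or_pos c with h | h
    · rw [h] at hpc; exact absurd (dvd_zero p) hpc
    · exact h
  refine ⟨hp, c, hc0, hpc, l ^ (p - 1), 1, hpos, le_refl _, ?_, Or.inr (by omega)⟩
  intro q hq hqd
  rw [mul_one] at hqd
  rw [(Nat.prime_dvd_prime_iff_eq hq hl).1 (hq.dvd_of_dvd_pow hqd)]
  exact hlL

/-- residue classes, with the smaller exceptional set -/
theorem result (L : ℕ) (hL : L.Prime) (m : ℕ) (hm : Odd m) (hms : Squarefree m) (a : ℕ)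
    (ha : a = 3 ∨ a = 5 ∨ a = 7) :
    ∃ x₀ : ℕ, ∀ x : ℕ, x₀ ≤ x →
      1 / (48 * (m : ℝ) ^ 2) * Real.log x ≤
        ({p | p ≤ x ∧ p.Prime ∧ p % 8 = a ∧ p ≡ 1 [MOD m] ∧
          (p ∈ NL L ∨ (p ∈ W23odd ∧
            ∀ l : ℕ, l.Prime → l ≤ L → l ≠ p → l ^ (p - 1) ≡ 1 [MOD p ^ 2]))} : Set ℕ).ncard := by
  obtain ⟨x₀, hx₀⟩ := count_union L hL m hm hms a ha
  refine ⟨x₀, fun x hx => ?_⟩
  have hset : ({p | p ≤ x ∧ p.Prime ∧ p % 8 = a ∧ p ≡ 1 [MOD m] ∧
      (p ∈ NL L ∨ (p ∈ W23odd ∧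
        ∀ l : ℕ, l.Prime → l ≤ L → l ≠ p → l ^ (p - 1) ≡ 1 [MOD p ^ 2]))} : Set ℕ) =
      {p | p ≤ x ∧ p.Prime ∧ p % 8 = a ∧ p ≡ 1 [MOD m] ∧ p ∈ NL L ∪ W23odd} := by
    ext p
    constructor
    · rintro ⟨h1, h2, h3, h4, h5⟩
      exact ⟨h1, h2, h3, h4, h5.imp id And.left⟩
    · rintro ⟨h1, h2, h3, h4, h5⟩
      refine ⟨h1, h2, h3, h4, ?_⟩
      by_cases hN : p ∈ NL L
      · exact Or.inl hN
      · exact Or.inr ⟨h5.resolve_left hN, fun l hl hlL hlp => wieferich_of_not_mem h2 hl hlL hlp hN⟩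
  rw [hset]
  exact hx₀ x hx

end Pool.Agent.Results.MP_61f5b2_nt.ResidueClasses
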